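import Pool.Agent.H33.BDFP.Stmts

attribute [local instance] Pool.Agent.H33.BDFP.NV.instNACG Pool.Agent.H33.BDFP.NV.instModule
  Pool.Agent.H33.BDFP.NV.instNormedSpace Pool.Agent.H33.BDFP.NV.instFD
  Pool.Agent.H33.BDFP.NV.instComplete

/-!
Module SEMI of the project BDFP: the semigroup of extensions.
-/

open scoped ENNReal NNReal

noncomputable section

namespace Pool.Agent.H90.BDFP

open Pool.Agent.H33.BDFP

section Norms

variable {X : Type} [NormedAddCommGroup X] [NormedSpace ℂ X]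

lemma norm_calkinMk_le (T : X →L[ℂ] X) : ‖calkinMk X T‖ ≤ ‖T‖ :=
  Submodule.Quotient.norm_mk_le (compactIdeal X) T

lemma exists_lift_norm_lt (x : Calkin X) {ε : ℝ} (hε : 0 < ε) :
    ∃ T : X →L[ℂ] X, calkinMk X T = x ∧ ‖T‖ < ‖x‖ + ε :=
  Submodule.Quotient.norm_mk_lt x hε

lemma calkin_norm_nonneg (x : Calkin X) : 0 ≤ ‖x‖ :=
  @norm_nonneg (Calkin X) (Submodule.Quotient.seminormedAddCommGroup
    (compactIdeal X)).toSeminormedAddGroup x

/-- the constant `‖S‖ ‖S⁻¹‖` -/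
def kap (S : (X × X) ≃L[ℂ] X) : ℝ :=
  ‖(S : (X × X) →L[ℂ] X)‖ * ‖(S.symm : X →L[ℂ] (X × X))‖

lemma kap_nonneg (S : (X × X) ≃L[ℂ] X) : 0 ≤ kap S := mul_nonneg (norm_nonneg _) (norm_nonneg _)

lemma norm_conjSum_le (S : (X × X) ≃L[ℂ] X) (T T' : X →L[ℂ] X) :
    ‖conjSum S T T'‖ ≤ kap S * max ‖T‖ ‖T'‖ := by
  unfold conjSum kap
  calc ‖(S : (X × X) →L[ℂ] X) ∘L (T.prodMap T') ∘L (S.symm : X →L[ℂ] (X × X))‖
      ≤ ‖(S : (X × X) →L[ℂ] X)‖ * ‖(T.prodMap T') ∘L (S.symm : X →L[ℂ] (X × X))‖ :=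
        ContinuousLinearMap.opNorm_comp_le _ _
    _ ≤ ‖(S : (X × X) →L[ℂ] X)‖ * (‖T.prodMap T'‖ * ‖(S.symm : X →L[ℂ] (X × X))‖) :=
        mul_le_mul_of_nonneg_left (ContinuousLinearMap.opNorm_comp_le _ _) (norm_nonneg _)
    _ ≤ ‖(S : (X × X) →L[ℂ] X)‖ * (max ‖T‖ ‖T'‖ * ‖(S.symm : X →L[ℂ] (X × X))‖) := by
        gcongr
        exact norm_prodMap_le T T'
    _ = _ := by ring

/-- the compression of an operator to the first summand -/
def corner₁ (S : (X × X) ≃L[ℂ] X) (R : X →L[ℂ] X) : X →L[ℂ] X :=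
  ContinuousLinearMap.fst ℂ X X ∘L (S.symm : X →L[ℂ] (X × X)) ∘L R ∘L
    (S : (X × X) →L[ℂ] X) ∘L ContinuousLinearMap.inl ℂ X X

/-- the compression of an operator to the second summand -/
def corner₂ (S : (X × X) ≃L[ℂ] X) (R : X →L[ℂ] X) : X →L[ℂ] X :=
  ContinuousLinearMap.snd ℂ X X ∘L (S.symm : X →L[ℂ] (X × X)) ∘L R ∘L
    (S : (X × X) →L[ℂ] X) ∘L ContinuousLinearMap.inr ℂ X X

lemma corner₁_conjSum (S : (X × X) ≃L[ℂ] X) (T T' : X →L[ℂ] X) :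
    corner₁ S (conjSum S T T') = T := by
  refine ContinuousLinearMap.ext fun x => ?_
  change (S.symm (S (T (S.symm (S (x, 0))).1, T' (S.symm (S (x, 0))).2))).1 = T x
  rw [S.symm_apply_apply, S.symm_apply_apply]

lemma corner₂_conjSum (S : (X × X) ≃L[ℂ] X) (T T' : X →L[ℂ] X) :
    corner₂ S (conjSum S T T') = T' := by
  refine ContinuousLinearMap.ext fun x => ?_
  change (S.symm (S (T (S.symm (S (0, x))).1, T' (S.symm (S (0, x))).2))).2 = T' x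
  rw [S.symm_apply_apply, S.symm_apply_apply]

lemma norm_corner₁_le (S : (X × X) ≃L[ℂ] X) (R : X →L[ℂ] X) :
    ‖corner₁ S R‖ ≤ kap S * ‖R‖ := by
  have h0 := kap_nonneg S
  refine ContinuousLinearMap.opNorm_le_bound _ (mul_nonneg h0 (norm_nonneg _)) fun x => ?_
  change ‖(S.symm (R (S (x, 0)))).1‖ ≤ _
  have h1 : ‖((x, 0) : X × X)‖ ≤ ‖x‖ := by
    rw [Prod.norm_def]; simp
  calc ‖(S.symm (R (S (x, 0)))).1‖ ≤ ‖S.symm (R (S (x, 0)))‖ := norm_fst_le _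
    _ ≤ ‖(S.symm : X →L[ℂ] (X × X))‖ * ‖R (S (x, 0))‖ :=
        (S.symm : X →L[ℂ] (X × X)).le_opNorm _
    _ ≤ ‖(S.symm : X →L[ℂ] (X × X))‖ * (‖R‖ * (‖(S : (X × X) →L[ℂ] X)‖ * ‖x‖)) := by
        refine mul_le_mul_of_nonneg_left ((R.le_opNorm _).trans ?_) (norm_nonneg _)
        refine mul_le_mul_of_nonneg_left ?_ (norm_nonneg _)
        exact ((S : (X × X) →L[ℂ] X).le_opNorm _).trans
          (mul_le_mul_of_nonneg_left h1 (norm_nonneg _))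
    _ = kap S * ‖R‖ * ‖x‖ := by unfold kap; ring

lemma norm_corner₂_le (S : (X × X) ≃L[ℂ] X) (R : X →L[ℂ] X) :
    ‖corner₂ S R‖ ≤ kap S * ‖R‖ := by
  have h0 := kap_nonneg S
  refine ContinuousLinearMap.opNorm_le_bound _ (mul_nonneg h0 (norm_nonneg _)) fun x => ?_
  change ‖(S.symm (R (S (0, x)))).2‖ ≤ _
  have h1 : ‖((0, x) : X × X)‖ ≤ ‖x‖ := by
    rw [Prod.norm_def]; simp
  calc ‖(S.symm (R (S (0, x)))).2‖ ≤ ‖S.symm (R (S (0, x)))‖ := norm_snd_le _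
    _ ≤ ‖(S.symm : X →L[ℂ] (X × X))‖ * ‖R (S (0, x))‖ :=
        (S.symm : X →L[ℂ] (X × X)).le_opNorm _
    _ ≤ ‖(S.symm : X →L[ℂ] (X × X))‖ * (‖R‖ * (‖(S : (X × X) →L[ℂ] X)‖ * ‖x‖)) := by
        refine mul_le_mul_of_nonneg_left ((R.le_opNorm _).trans ?_) (norm_nonneg _)
        refine mul_le_mul_of_nonneg_left ?_ (norm_nonneg _)
        exact ((S : (X × X) →L[ℂ] X).le_opNorm _).trans
          (mul_le_mul_of_nonneg_left h1 (norm_nonneg _))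
    _ = kap S * ‖R‖ * ‖x‖ := by unfold kap; ring

/-- compressions respect compact perturbations -/
lemma corner₁_eqK (S : (X × X) ≃L[ℂ] X) {R R' : X →L[ℂ] X} (h : EqK R R') :
    EqK (corner₁ S R) (corner₁ S R') := by
  have h1 : corner₁ S R - corner₁ S R' = (ContinuousLinearMap.fst ℂ X X ∘L
      (S.symm : X →L[ℂ] (X × X))) ∘L ((R - R') ∘L
      ((S : (X × X) →L[ℂ] X) ∘L ContinuousLinearMap.inl ℂ X X)) := by
    refine ContinuousLinearMap.ext fun x => ?_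
    change (S.symm (R (S (x, 0)))).1 - (S.symm (R' (S (x, 0)))).1
      = (S.symm (R (S (x, 0)) - R' (S (x, 0)))).1
    rw [map_sub]
    rfl
  change IsCompactOperator (⇑(corner₁ S R - corner₁ S R'))
  rw [h1]
  have h2 : IsCompactOperator (⇑(R - R')) := h
  exact (h2.comp_clm ((S : (X × X) →L[ℂ] X) ∘L ContinuousLinearMap.inl ℂ X X)).clm_comp
    (ContinuousLinearMap.fst ℂ X X ∘L (S.symm : X →L[ℂ] (X × X)))

lemma corner₂_eqK (S : (X × X) ≃L[ℂ] X) {R R' : X →L[ℂ] X} (h : EqK R R') :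
    EqK (corner₂ S R) (corner₂ S R') := by
  have h1 : corner₂ S R - corner₂ S R' = (ContinuousLinearMap.snd ℂ X X ∘L
      (S.symm : X →L[ℂ] (X × X))) ∘L ((R - R') ∘L
      ((S : (X × X) →L[ℂ] X) ∘L ContinuousLinearMap.inr ℂ X X)) := by
    refine ContinuousLinearMap.ext fun x => ?_
    change (S.symm (R (S (0, x)))).2 - (S.symm (R' (S (0, x)))).2
      = (S.symm (R (S (0, x)) - R' (S (0, x)))).2
    rw [map_sub]
    rfl
  change IsCompactOperator (⇑(corner₂ S R - corner₂ S R'))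
  rw [h1]
  have h2 : IsCompactOperator (⇑(R - R')) := h
  exact (h2.comp_clm ((S : (X × X) →L[ℂ] X) ∘L ContinuousLinearMap.inr ℂ X X)).clm_comp
    (ContinuousLinearMap.snd ℂ X X ∘L (S.symm : X →L[ℂ] (X × X)))

lemma norm_calkinSum_le (S : (X × X) ≃L[ℂ] X) (x y : Calkin X) :
    ‖calkinSum S x y‖ ≤ kap S * max ‖x‖ ‖y‖ := by
  have h0 := kap_nonneg S
  refine le_of_forall_pos_le_add fun ε hε => ?_
  obtain ⟨δ, hδ, hδ'⟩ : ∃ δ : ℝ, 0 < δ ∧ kap S * δ ≤ ε := by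
    refine ⟨ε / (kap S + 1), by positivity, ?_⟩
    rw [mul_div_assoc', div_le_iff₀ (by positivity)]
    nlinarith
  obtain ⟨T, hT, hT'⟩ := exists_lift_norm_lt x hδ
  obtain ⟨R, hR, hR'⟩ := exists_lift_norm_lt y hδ
  rw [← hT, ← hR, calkinSum_mk]
  calc ‖calkinMk X (conjSum S T R)‖ ≤ ‖conjSum S T R‖ := norm_calkinMk_le _
    _ ≤ kap S * max ‖T‖ ‖R‖ := norm_conjSum_le S T R
    _ ≤ kap S * (max ‖x‖ ‖y‖ + δ) := by
        refine mul_le_mul_of_nonneg_left (max_le ?_ ?_) h0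
        · exact hT'.le.trans (by gcongr; exact le_max_left _ _)
        · exact hR'.le.trans (by gcongr; exact le_max_right _ _)
    _ ≤ kap S * max ‖calkinMk X T‖ ‖calkinMk X R‖ + ε := by
        rw [mul_add, hT, hR]
        gcongr

lemma norm_le_calkinSum₁ (S : (X × X) ≃L[ℂ] X) (x y : Calkin X) :
    ‖x‖ ≤ kap S * ‖calkinSum S x y‖ := by
  have h0 := kap_nonneg S
  refine le_of_forall_pos_le_add fun ε hε => ?_
  obtain ⟨δ, hδ, hδ'⟩ : ∃ δ : ℝ, 0 < δ ∧ kap S * δ ≤ ε := by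
    refine ⟨ε / (kap S + 1), by positivity, ?_⟩
    rw [mul_div_assoc', div_le_iff₀ (by positivity)]
    nlinarith
  obtain ⟨T, hT⟩ := calkinMk_surjective x
  obtain ⟨T', hT'⟩ := calkinMk_surjective y
  obtain ⟨R, hR, hR'⟩ := exists_lift_norm_lt (calkinSum S x y) hδ
  have h1 : calkinMk X (corner₁ S R) = x := by
    rw [← hT, calkinMk_eq_iff]
    have h2 : EqK R (conjSum S T T') := by
      rw [← calkinMk_eq_iff, hR, ← hT, ← hT', calkinSum_mk]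
    have h3 := corner₁_eqK S h2
    rwa [corner₁_conjSum] at h3
  calc ‖x‖ = ‖calkinMk X (corner₁ S R)‖ := by rw [h1]
    _ ≤ ‖corner₁ S R‖ := norm_calkinMk_le _
    _ ≤ kap S * ‖R‖ := norm_corner₁_le S R
    _ ≤ kap S * (‖calkinSum S x y‖ + δ) := mul_le_mul_of_nonneg_left hR'.le h0
    _ ≤ _ := by rw [mul_add]; gcongr

end Norms

section Ext

set_option linter.unusedSectionVars false

variable {M : Set ℂ} [CompactSpace M]
variable {X : Type} [NormedAddCommGroup X] [NormedSpace ℂ X]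

lemma extSum_apply_mk (S : (X × X) ≃L[ℂ] X) (φ ψ : C(M, ℂ) →ₐ[ℂ] Calkin X) (a : C(M, ℂ))
    {T T' : X →L[ℂ] X} (hT : calkinMk X T = φ a) (hT' : calkinMk X T' = ψ a) :
    extSum S φ ψ a = calkinMk X (conjSum S T T') := by
  change calkinSum S (φ a) (ψ a) = _
  rw [← hT, ← hT', calkinSum_mk]

lemma isIsoExt_extSum (S : (X × X) ≃L[ℂ] X) {φ ψ : C(M, ℂ) →ₐ[ℂ] Calkin X} (hφ : IsIsoExt φ)
    (hψ : IsIsoExt ψ) : IsIsoExt (extSum S φ ψ) := by
  obtain ⟨C, hC, h1⟩ := hφ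
  obtain ⟨D, hD, h2⟩ := hψ
  have h0 := kap_nonneg S
  have hC0 : 0 < C := zero_lt_one.trans_le hC
  have hE : 1 ≤ (kap S + 1) * (C + D) := by nlinarith
  refine ⟨(kap S + 1) * (C + D), hE, fun a => ⟨?_, ?_⟩⟩
  · change _ ≤ ‖calkinSum S (φ a) (ψ a)‖
    have h3 := norm_le_calkinSum₁ S (φ a) (ψ a)
    have h4 := (h1 a).1
    rw [inv_mul_le_iff₀ (by positivity)]
    rw [inv_mul_le_iff₀ hC0] at h4
    have h5 : 0 ≤ ‖calkinSum S (φ a) (ψ a)‖ := calkin_norm_nonneg _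
    calc ‖a‖ ≤ C * ‖φ a‖ := h4
      _ ≤ C * (kap S * ‖calkinSum S (φ a) (ψ a)‖) := by gcongr
      _ ≤ (kap S + 1) * (C + D) * ‖calkinSum S (φ a) (ψ a)‖ := by
          have h6 : C * kap S ≤ (kap S + 1) * (C + D) := by nlinarith
          calc C * (kap S * ‖calkinSum S (φ a) (ψ a)‖)
              = (C * kap S) * ‖calkinSum S (φ a) (ψ a)‖ := by ring
            _ ≤ _ := mul_le_mul_of_nonneg_right h6 h5
  · change ‖calkinSum S (φ a) (ψ a)‖ ≤ _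
    have h5 : 0 ≤ ‖a‖ := norm_nonneg _
    have h3 : max ‖φ a‖ ‖ψ a‖ ≤ (C + D) * ‖a‖ := by
      refine max_le ((h1 a).2.trans ?_) ((h2 a).2.trans ?_) <;> gcongr <;> linarith
    calc ‖calkinSum S (φ a) (ψ a)‖ ≤ kap S * max ‖φ a‖ ‖ψ a‖ := norm_calkinSum_le _ _ _
      _ ≤ kap S * ((C + D) * ‖a‖) := mul_le_mul_of_nonneg_left h3 h0
      _ ≤ (kap S + 1) * ((C + D) * ‖a‖) := by gcongr; linarith
      _ = _ := by ring

/-- the sum of two representations -/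
def liftSum (S : (X × X) ≃L[ℂ] X) (ρ ρ' : C(M, ℂ) →ₐ[ℂ] (X →L[ℂ] X)) :
    C(M, ℂ) →ₐ[ℂ] (X →L[ℂ] X) where
  toFun := fun a => conjSum S (ρ a) (ρ' a)
  map_add' := fun a b => by
    refine ContinuousLinearMap.ext fun x => ?_
    change S (ρ (a + b) (S.symm x).1, ρ' (a + b) (S.symm x).2)
      = S (ρ a (S.symm x).1, ρ' a (S.symm x).2) + S (ρ b (S.symm x).1, ρ' b (S.symm x).2)
    rw [← map_add, map_add ρ, map_add ρ']
    rfl
  map_mul' := fun a b => by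
    refine ContinuousLinearMap.ext fun x => ?_
    change S (ρ (a * b) (S.symm x).1, ρ' (a * b) (S.symm x).2)
      = S (ρ a (S.symm (S (ρ b (S.symm x).1, ρ' b (S.symm x).2))).1,
        ρ' a (S.symm (S (ρ b (S.symm x).1, ρ' b (S.symm x).2))).2)
    rw [S.symm_apply_apply, map_mul ρ, map_mul ρ']
    rfl
  map_one' := by
    refine ContinuousLinearMap.ext fun x => ?_
    change S (ρ 1 (S.symm x).1, ρ' 1 (S.symm x).2) = x
    rw [map_one, map_one]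
    exact S.apply_symm_apply x
  map_zero' := by
    refine ContinuousLinearMap.ext fun x => ?_
    change S (ρ 0 (S.symm x).1, ρ' 0 (S.symm x).2) = 0
    rw [map_zero, map_zero]
    exact map_zero S
  commutes' := fun c => by
    refine ContinuousLinearMap.ext fun x => ?_
    change S (ρ (algebraMap ℂ C(M, ℂ) c) (S.symm x).1, ρ' (algebraMap ℂ C(M, ℂ) c) (S.symm x).2)
      = c • x
    rw [AlgHom.commutes, AlgHom.commutes]
    change S (c • (S.symm x)) = c • x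
    rw [map_smul, S.apply_symm_apply]

lemma liftSum_apply (S : (X × X) ≃L[ℂ] X) (ρ ρ' : C(M, ℂ) →ₐ[ℂ] (X →L[ℂ] X)) (a : C(M, ℂ)) :
    liftSum S ρ ρ' a = conjSum S (ρ a) (ρ' a) := rfl

lemma isTrivialExt_extSum (S : (X × X) ≃L[ℂ] X) {φ ψ : C(M, ℂ) →ₐ[ℂ] Calkin X}
    (hφ : IsTrivialExt φ) (hψ : IsTrivialExt ψ) : IsTrivialExt (extSum S φ ψ) := by
  obtain ⟨iφ, ρ, ⟨C, hC, h1⟩, h1'⟩ := hφ
  obtain ⟨iψ, ρ', ⟨D, hD, h2⟩, h2'⟩ := hψ
  refine ⟨isIsoExt_extSum S iφ iψ, liftSum S ρ ρ', ?_, fun a => ?_⟩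
  · have h0 := kap_nonneg S
    have hC0 : 0 < C := zero_lt_one.trans_le hC
    have hE : 1 ≤ (kap S + 1) * (C + D) := by nlinarith
    refine ⟨(kap S + 1) * (C + D), hE, fun a => ⟨?_, ?_⟩⟩
    · rw [liftSum_apply]
      have h3 : ‖ρ a‖ ≤ kap S * ‖conjSum S (ρ a) (ρ' a)‖ := by
        have h3' := norm_corner₁_le S (conjSum S (ρ a) (ρ' a))
        rwa [corner₁_conjSum] at h3'
      have h4 := (h1 a).1
      rw [inv_mul_le_iff₀ (by positivity)]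
      rw [inv_mul_le_iff₀ hC0] at h4
      have h5 : 0 ≤ ‖conjSum S (ρ a) (ρ' a)‖ := norm_nonneg _
      calc ‖a‖ ≤ C * ‖ρ a‖ := h4
        _ ≤ C * (kap S * ‖conjSum S (ρ a) (ρ' a)‖) := by gcongr
        _ ≤ (kap S + 1) * (C + D) * ‖conjSum S (ρ a) (ρ' a)‖ := by
            have h6 : C * kap S ≤ (kap S + 1) * (C + D) := by nlinarith
            calc C * (kap S * ‖conjSum S (ρ a) (ρ' a)‖)
                = (C * kap S) * ‖conjSum S (ρ a) (ρ' a)‖ := by ring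
              _ ≤ _ := mul_le_mul_of_nonneg_right h6 h5
    · rw [liftSum_apply]
      have h5 : 0 ≤ ‖a‖ := norm_nonneg _
      have h3 : max ‖ρ a‖ ‖ρ' a‖ ≤ (C + D) * ‖a‖ := by
        refine max_le ((h1 a).2.trans ?_) ((h2 a).2.trans ?_) <;> gcongr <;> linarith
      calc ‖conjSum S (ρ a) (ρ' a)‖ ≤ kap S * max ‖ρ a‖ ‖ρ' a‖ := norm_conjSum_le _ _ _
        _ ≤ kap S * ((C + D) * ‖a‖) := mul_le_mul_of_nonneg_left h3 h0
        _ ≤ (kap S + 1) * ((C + D) * ‖a‖) := by gcongr; linarith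
        _ = _ := by ring
  · rw [liftSum_apply]
    exact extSum_apply_mk S φ ψ a (h1' a).symm (h2' a).symm

/-- an isomorphism as a unit -/
def unitOf (W : X ≃L[ℂ] X) : (X →L[ℂ] X)ˣ where
  val := (W : X →L[ℂ] X)
  inv := (W.symm : X →L[ℂ] X)
  val_inv := ContinuousLinearMap.ext fun x => W.apply_symm_apply x
  inv_val := ContinuousLinearMap.ext fun x => W.symm_apply_apply x

/-- a unit as an isomorphism -/
def isoOf (U : (X →L[ℂ] X)ˣ) : X ≃L[ℂ] X :=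
  ContinuousLinearEquiv.unitsEquiv ℂ X U

lemma isoOf_apply (U : (X →L[ℂ] X)ˣ) (x : X) : isoOf U x = (U : X →L[ℂ] X) x := rfl

lemma isoOf_symm_apply (U : (X →L[ℂ] X)ˣ) (x : X) :
    (isoOf U).symm x = ((U⁻¹ : (X →L[ℂ] X)ˣ) : X →L[ℂ] X) x := rfl

/-- criterion for the equivalence of extensions -/
lemma extEquiv_of_lift {φ ψ : C(M, ℂ) →ₐ[ℂ] Calkin X} (W : X ≃L[ℂ] X)
    (h : ∀ a, ∃ T R : X →L[ℂ] X, calkinMk X T = φ a ∧ calkinMk X R = ψ a ∧
      ∀ x, R (W x) = W (T x)) : ExtEquiv φ ψ := by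
  refine ⟨unitOf W, fun a => ?_⟩
  obtain ⟨T, R, hT, hR, h1⟩ := h a
  rw [← hT, ← hR, ← map_mul, ← map_mul]
  congr 1
  refine ContinuousLinearMap.ext fun x => ?_
  change R x = W (T (W.symm x))
  rw [← h1, W.apply_symm_apply]

/-- an equivalence of extensions on the level of operators -/
lemma ExtEquiv.exists_iso {φ ψ : C(M, ℂ) →ₐ[ℂ] Calkin X} (h : ExtEquiv φ ψ) :
    ∃ W : X ≃L[ℂ] X, ∀ a (T : X →L[ℂ] X), calkinMk X T = φ a →
      calkinMk X ((W : X →L[ℂ] X) ∘L T ∘L (W.symm : X →L[ℂ] X)) = ψ a := by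
  obtain ⟨U, hU⟩ := h
  refine ⟨isoOf U, fun a T hT => ?_⟩
  rw [hU a, ← hT, ← map_mul, ← map_mul]
  rfl

lemma extEquiv_refl (φ : C(M, ℂ) →ₐ[ℂ] Calkin X) : ExtEquiv φ φ := by
  refine extEquiv_of_lift (ContinuousLinearEquiv.refl ℂ X) fun a => ?_
  obtain ⟨T, hT⟩ := calkinMk_surjective (φ a)
  exact ⟨T, T, hT, hT, fun x => rfl⟩

lemma extEquiv_symm {φ ψ : C(M, ℂ) →ₐ[ℂ] Calkin X} (h : ExtEquiv φ ψ) : ExtEquiv ψ φ := by
  obtain ⟨W, hW⟩ := ExtEquiv.exists_iso h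
  refine extEquiv_of_lift W.symm fun a => ?_
  obtain ⟨T, hT⟩ := calkinMk_surjective (φ a)
  refine ⟨_, T, hW a T hT, hT, fun x => ?_⟩
  change T (W.symm x) = W.symm (W (T (W.symm x)))
  rw [W.symm_apply_apply]

lemma extEquiv_trans {φ ψ χ : C(M, ℂ) →ₐ[ℂ] Calkin X} (h : ExtEquiv φ ψ)
    (h' : ExtEquiv ψ χ) : ExtEquiv φ χ := by
  obtain ⟨W, hW⟩ := ExtEquiv.exists_iso h
  obtain ⟨V, hV⟩ := ExtEquiv.exists_iso h'
  refine extEquiv_of_lift (W.trans V) fun a => ?_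
  obtain ⟨T, hT⟩ := calkinMk_surjective (φ a)
  refine ⟨T, _, hT, hV a _ (hW a T hT), fun x => ?_⟩
  change V (W (T (W.symm (V.symm (V (W x)))))) = V (W (T x))
  rw [V.symm_apply_apply, W.symm_apply_apply]

lemma extEquiv_sum_congr (S S' : (X × X) ≃L[ℂ] X) {φ φ' ψ ψ' : C(M, ℂ) →ₐ[ℂ] Calkin X}
    (h : ExtEquiv φ φ') (h' : ExtEquiv ψ ψ') :
    ExtEquiv (extSum S φ ψ) (extSum S' φ' ψ') := by
  obtain ⟨W, hW⟩ := ExtEquiv.exists_iso h
  obtain ⟨V, hV⟩ := ExtEquiv.exists_iso h'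
  refine extEquiv_of_lift ((S.symm.trans (W.prodCongr V)).trans S') fun a => ?_
  obtain ⟨T, hT⟩ := calkinMk_surjective (φ a)
  obtain ⟨R, hR⟩ := calkinMk_surjective (ψ a)
  refine ⟨_, _, (extSum_apply_mk S φ ψ a hT hR).symm,
    (extSum_apply_mk S' φ' ψ' a (hW a T hT) (hV a R hR)).symm, fun x => ?_⟩
  change S' (W (T (W.symm (S'.symm (S' (W (S.symm x).1, V (S.symm x).2))).1)),
      V (R (V.symm (S'.symm (S' (W (S.symm x).1, V (S.symm x).2))).2))) =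
    S' (W (S.symm (S (T (S.symm x).1, R (S.symm x).2))).1,
      V (S.symm (S (T (S.symm x).1, R (S.symm x).2))).2)
  rw [S'.symm_apply_apply, S.symm_apply_apply]
  change S' (W (T (W.symm (W (S.symm x).1))), V (R (V.symm (V (S.symm x).2)))) = _
  rw [W.symm_apply_apply, V.symm_apply_apply]

lemma extEquiv_sum_comm (S S' : (X × X) ≃L[ℂ] X) (φ ψ : C(M, ℂ) →ₐ[ℂ] Calkin X) :
    ExtEquiv (extSum S φ ψ) (extSum S' ψ φ) := by
  refine extEquiv_of_lift ((S.symm.trans (ContinuousLinearEquiv.prodComm ℂ X X)).trans S')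
    fun a => ?_
  obtain ⟨T, hT⟩ := calkinMk_surjective (φ a)
  obtain ⟨R, hR⟩ := calkinMk_surjective (ψ a)
  refine ⟨_, _, (extSum_apply_mk S φ ψ a hT hR).symm,
    (extSum_apply_mk S' ψ φ a hR hT).symm, fun x => ?_⟩
  change S' (R (S'.symm (S' ((S.symm x).2, (S.symm x).1))).1,
      T (S'.symm (S' ((S.symm x).2, (S.symm x).1))).2) =
    S' ((S.symm (S (T (S.symm x).1, R (S.symm x).2))).2,
      (S.symm (S (T (S.symm x).1, R (S.symm x).2))).1)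
  rw [S'.symm_apply_apply, S.symm_apply_apply]

lemma extEquiv_sum_assoc (S S' : (X × X) ≃L[ℂ] X) (φ ψ χ : C(M, ℂ) →ₐ[ℂ] Calkin X) :
    ExtEquiv (extSum S (extSum S φ ψ) χ) (extSum S' φ (extSum S' ψ χ)) := by
  refine extEquiv_of_lift
    ((((S.symm.trans (S.symm.prodCongr (ContinuousLinearEquiv.refl ℂ X))).trans
      (ContinuousLinearEquiv.prodAssoc ℂ X X X)).trans
      ((ContinuousLinearEquiv.refl ℂ X).prodCongr S')).trans S') fun a => ?_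
  obtain ⟨T₁, h1⟩ := calkinMk_surjective (φ a)
  obtain ⟨T₂, h2⟩ := calkinMk_surjective (ψ a)
  obtain ⟨T₃, h3⟩ := calkinMk_surjective (χ a)
  refine ⟨_, _, (extSum_apply_mk S _ χ a (extSum_apply_mk S φ ψ a h1 h2).symm h3).symm,
    (extSum_apply_mk S' φ _ a h1 (extSum_apply_mk S' ψ χ a h2 h3).symm).symm, fun x => ?_⟩
  change S' (T₁ (S'.symm (S' ((S.symm (S.symm x).1).1,
        S' ((S.symm (S.symm x).1).2, (S.symm x).2)))).1,
      S' (T₂ (S'.symm (S'.symm (S' ((S.symm (S.symm x).1).1,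
          S' ((S.symm (S.symm x).1).2, (S.symm x).2)))).2).1,
        T₃ (S'.symm (S'.symm (S' ((S.symm (S.symm x).1).1,
          S' ((S.symm (S.symm x).1).2, (S.symm x).2)))).2).2)) =
    S' ((S.symm (S.symm (S (S (T₁ (S.symm (S.symm x).1).1, T₂ (S.symm (S.symm x).1).2),
          T₃ (S.symm x).2))).1).1,
      S' ((S.symm (S.symm (S (S (T₁ (S.symm (S.symm x).1).1, T₂ (S.symm (S.symm x).1).2),
          T₃ (S.symm x).2))).1).2,
        (S.symm (S (S (T₁ (S.symm (S.symm x).1).1, T₂ (S.symm (S.symm x).1).2),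
          T₃ (S.symm x).2))).2))
  simp only [S'.symm_apply_apply, S.symm_apply_apply]

end Ext

/-- Module SEMI. -/
theorem semi : SemiStmt := by
  intro p _ M _
  exact ⟨fun S _ _ h h' => isIsoExt_extSum S h h', fun S _ _ h h' => isTrivialExt_extSum S h h',
    extEquiv_refl, fun _ _ h => extEquiv_symm h, fun _ _ _ h h' => extEquiv_trans h h',
    fun S S' _ _ _ _ h h' => extEquiv_sum_congr S S' h h',
    fun S S' φ ψ => extEquiv_sum_comm S S' φ ψ,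
    fun S S' φ ψ χ => extEquiv_sum_assoc S S' φ ψ χ⟩

end Pool.Agent.H90.BDFP
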