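import Pool.Agent.H33.BDFP.Stmts
import Pool.Agent.H33.BDFP.Ess
import Pool.Agent.H90.BDFP.SEMI

attribute [local instance] Pool.Agent.H33.BDFP.NV.instNACG Pool.Agent.H33.BDFP.NV.instModule
  Pool.Agent.H33.BDFP.NV.instNormedSpace Pool.Agent.H33.BDFP.NV.instFD
  Pool.Agent.H33.BDFP.NV.instComplete

/-!
Module STAB of the project BDFP: an extension of index zero is stably trivial.
-/

open scoped ENNReal NNReal

noncomputable section

namespace Pool.Agent.H90.BDFP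

open Pool.Agent.H33.BDFP

section FD

variable {X Y E F : Type} [NormedAddCommGroup X] [NormedSpace ℂ X]
  [NormedAddCommGroup Y] [NormedSpace ℂ Y] [NormedAddCommGroup E] [NormedSpace ℂ E]
  [NormedAddCommGroup F] [NormedSpace ℂ F]

lemma isCompactOperator_id_fd [FiniteDimensional ℂ E] :
    IsCompactOperator (⇑(ContinuousLinearMap.id ℂ E)) :=
  (isCompactOperator_id_iff_finiteDimensional (𝕜 := ℂ) (E := E)).2 inferInstance

lemma isCompactOperator_fd_dom [FiniteDimensional ℂ E] (T : E →L[ℂ] Y) :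
    IsCompactOperator (⇑T) :=
  (isCompactOperator_id_fd (E := E)).clm_comp T

lemma isCompactOperator_fd_cod [FiniteDimensional ℂ E] (T : X →L[ℂ] E) :
    IsCompactOperator (⇑T) :=
  (isCompactOperator_id_fd (E := E)).comp_clm T

lemma eqK_fd_dom [FiniteDimensional ℂ E] (S T : E →L[ℂ] Y) : EqK S T :=
  isCompactOperator_fd_dom (S - T)

lemma eqK_fd_cod [FiniteDimensional ℂ E] (S T : X →L[ℂ] E) : EqK S T :=
  isCompactOperator_fd_cod (S - T)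

lemma essInv_fd [FiniteDimensional ℂ E] [FiniteDimensional ℂ F] (S : E →L[ℂ] F) : EssInv S :=
  ⟨0, eqK_fd_dom _ _, eqK_fd_dom _ _⟩

lemma ap_fd [FiniteDimensional ℂ E] : AP E := by
  intro X _ _ C _ ε hε
  refine ⟨C, inferInstance, ?_⟩
  rw [sub_self, norm_zero]
  exact hε.le

lemma findex_zero_fd [FiniteDimensional ℂ E] [FiniteDimensional ℂ F] :
    findex (0 : E →L[ℂ] F) = (Module.finrank ℂ E : ℤ) - Module.finrank ℂ F := by
  unfold findex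
  have h1 : LinearMap.ker ((0 : E →L[ℂ] F) : E →L[ℂ] F).toLinearMap = ⊤ := by
    ext x
    simp
  have h2 : LinearMap.range ((0 : E →L[ℂ] F) : E →L[ℂ] F).toLinearMap = ⊥ := by
    ext x
    simp
  rw [h1, h2, finrank_top]
  congr 2
  exact (Submodule.quotEquivOfEqBot (⊥ : Submodule ℂ F) rfl).finrank_eq

end FD

section Calk

set_option linter.unusedSectionVars false

variable {X : Type} [NormedAddCommGroup X] [NormedSpace ℂ X]

lemma norm_mul_mul_le (A B : X →L[ℂ] X) (x : Calkin X) :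
    ‖calkinMk X A * x * calkinMk X B‖ ≤ ‖A‖ * ‖B‖ * ‖x‖ := by
  have h0 : 0 ≤ ‖A‖ * ‖B‖ := mul_nonneg (norm_nonneg _) (norm_nonneg _)
  refine le_of_forall_pos_le_add fun ε hε => ?_
  obtain ⟨δ, hδ, hδ'⟩ : ∃ δ : ℝ, 0 < δ ∧ (‖A‖ * ‖B‖) * δ ≤ ε := by
    refine ⟨ε / (‖A‖ * ‖B‖ + 1), by positivity, ?_⟩
    rw [mul_div_assoc', div_le_iff₀ (by positivity)]
    nlinarith
  obtain ⟨T, hT, hT'⟩ := exists_lift_norm_lt x hδ
  have h1 : calkinMk X A * x * calkinMk X B = calkinMk X (A * T * B) := by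
    rw [map_mul, map_mul, hT]
  rw [h1]
  calc ‖calkinMk X (A * T * B)‖ ≤ ‖A * T * B‖ := norm_calkinMk_le _
    _ ≤ ‖A * T‖ * ‖B‖ := norm_mul_le _ _
    _ ≤ ‖A‖ * ‖T‖ * ‖B‖ := mul_le_mul_of_nonneg_right (norm_mul_le _ _) (norm_nonneg _)
    _ = (‖A‖ * ‖B‖) * ‖T‖ := by ring
    _ ≤ (‖A‖ * ‖B‖) * (‖x‖ + δ) := mul_le_mul_of_nonneg_left hT'.le h0
    _ ≤ _ := by rw [mul_add]; gcongr

variable {M : Set ℂ} [CompactSpace M]

/-- a representation which contains a bounded below representation is trivial -/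
lemma isTrivialExt_of_rep (τ : Rep M X) (A B : X →L[ℂ] X) (ρ : C(M, ℂ) →ₐ[ℂ] (X →L[ℂ] X))
    (h : ∀ a, ρ a = A * τ.hom a * B) (C : ℝ) (hC : 1 ≤ C)
    (h1 : ∀ a, C⁻¹ * ‖a‖ ≤ ‖ρ a‖) (h2 : ∀ a, C⁻¹ * ‖a‖ ≤ ‖calkinMk X (ρ a)‖) :
    IsTrivialExt ((calkinMk X).comp τ.hom) := by
  obtain ⟨D, hD⟩ := τ.bdd
  have hC0 : 0 < C := zero_lt_one.trans_le hC
  have hAB : 0 ≤ ‖A‖ * ‖B‖ := mul_nonneg (norm_nonneg _) (norm_nonneg _)
  have hK1 : 1 ≤ C * (‖A‖ * ‖B‖ + 1) + |D| := by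
    have := abs_nonneg D
    nlinarith
  have hK0 : 0 < C * (‖A‖ * ‖B‖ + 1) + |D| := zero_lt_one.trans_le hK1
  have hup : ∀ a, ‖τ.hom a‖ ≤ (C * (‖A‖ * ‖B‖ + 1) + |D|) * ‖a‖ := by
    intro a
    refine (hD a).trans (mul_le_mul_of_nonneg_right ?_ (norm_nonneg a))
    have := le_abs_self D
    have : 0 ≤ C * (‖A‖ * ‖B‖ + 1) := by positivity
    linarith
  have hkey : ∀ (a : C(M, ℂ)) (t : ℝ), 0 ≤ t → ∀ s, C⁻¹ * ‖a‖ ≤ s → s ≤ ‖A‖ * ‖B‖ * t →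
      (C * (‖A‖ * ‖B‖ + 1) + |D|)⁻¹ * ‖a‖ ≤ t := by
    intro a t ht s hs hs'
    rw [inv_mul_le_iff₀ hK0]
    rw [inv_mul_le_iff₀ hC0] at hs
    have h5 : 0 ≤ |D| := abs_nonneg D
    calc ‖a‖ ≤ C * s := hs
      _ ≤ C * (‖A‖ * ‖B‖ * t) := by gcongr
      _ = (C * (‖A‖ * ‖B‖)) * t := by ring
      _ ≤ (C * (‖A‖ * ‖B‖ + 1) + |D|) * t := by
        refine mul_le_mul_of_nonneg_right ?_ ht
        nlinarith
  refine ⟨⟨C * (‖A‖ * ‖B‖ + 1) + |D|, hK1, fun a => ⟨?_, ?_⟩⟩, τ.hom,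
    ⟨C * (‖A‖ * ‖B‖ + 1) + |D|, hK1, fun a => ⟨?_, hup a⟩⟩, fun a => rfl⟩
  · refine hkey a _ (calkin_norm_nonneg _) _ (h2 a) ?_
    rw [h a, map_mul, map_mul]
    exact norm_mul_mul_le A B _
  · exact (norm_calkinMk_le _).trans (hup a)
  · refine hkey a _ (norm_nonneg _) _ (h1 a) ?_
    rw [h a]
    calc ‖A * τ.hom a * B‖ ≤ ‖A * τ.hom a‖ * ‖B‖ := norm_mul_le _ _
      _ ≤ ‖A‖ * ‖τ.hom a‖ * ‖B‖ := mul_le_mul_of_nonneg_right (norm_mul_le _ _) (norm_nonneg _)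
      _ = _ := by ring

/-- equivalence from an isomorphism which intertwines modulo compact operators -/
lemma extEquiv_of_eqK {φ ψ : C(M, ℂ) →ₐ[ℂ] Calkin X} (W : X ≃L[ℂ] X)
    (h : ∀ a, ∃ T R : X →L[ℂ] X, calkinMk X T = φ a ∧ calkinMk X R = ψ a ∧
      EqK (R ∘L (W : X →L[ℂ] X)) ((W : X →L[ℂ] X) ∘L T)) : ExtEquiv φ ψ := by
  refine extEquiv_of_lift W fun a => ?_
  obtain ⟨T, R, hT, hR, h1⟩ := h a
  refine ⟨T, (W : X →L[ℂ] X) ∘L T ∘L (W.symm : X →L[ℂ] X), hT, ?_, fun x => ?_⟩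
  · rw [← hR, calkinMk_eq_iff]
    have h2 := (h1.comp_right (W.symm : X →L[ℂ] X)).symm
    have h3 : (R ∘L (W : X →L[ℂ] X)) ∘L (W.symm : X →L[ℂ] X) = R := by
      refine ContinuousLinearMap.ext fun x => ?_
      change R (W (W.symm x)) = R x
      rw [W.apply_symm_apply]
    rw [h3] at h2
    exact h2
  · change W (T (W.symm (W x))) = W (T x)
    rw [W.symm_apply_apply]

/-- the operator `T_z - μ` -/
lemma essInv_of_ext (φ : C(M, ℂ) →ₐ[ℂ] Calkin X) {μ : ℂ} (hμ : μ ∉ M) (T : X →L[ℂ] X)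
    (hT : calkinMk X T = φ (zfun M) - μ • 1) : EssInv T := by
  have hne : ∀ z : M, (z : ℂ) - μ ≠ 0 := by
    intro z hz
    apply hμ
    rw [← sub_eq_zero.1 hz]
    exact z.2
  let g : C(M, ℂ) := ⟨fun z => ((z : ℂ) - μ)⁻¹,
    (continuous_subtype_val.sub continuous_const).inv₀ hne⟩
  have hg : g * (zfun M - μ • 1) = 1 := by
    ext z
    change ((z : ℂ) - μ)⁻¹ * ((z : ℂ) - μ * 1) = 1
    rw [mul_one, inv_mul_cancel₀ (hne z)]
  have hφ : φ (zfun M - μ • 1) = calkinMk X T := by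
    rw [hT, map_sub, map_smul, map_one]
  obtain ⟨G, hG⟩ := calkinMk_surjective (φ g)
  refine ⟨G, ?_, ?_⟩
  · rw [← calkinMk_eq_iff]
    change calkinMk X (G * T) = calkinMk X 1
    rw [map_mul, hG, ← hφ, ← map_mul, hg, map_one, map_one]
  · rw [← calkinMk_eq_iff]
    change calkinMk X (T * G) = calkinMk X 1
    rw [map_mul, hG, ← hφ, ← map_mul, mul_comm, hg, map_one, map_one]

end Calk

/-- the scalar representation -/
def scal {M : Set ℂ} [CompactSpace M] (v : M) (E : Type) [NormedAddCommGroup E]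
    [NormedSpace ℂ E] : Rep M E where
  hom := (Algebra.ofId ℂ (E →L[ℂ] E)).comp (ContinuousMap.evalAlgHom ℂ ℂ v)
  bdd := ⟨1, fun a => by
    refine ContinuousLinearMap.opNorm_le_bound _ (by positivity) fun x => ?_
    change ‖a v • x‖ ≤ _
    rw [norm_smul, one_mul]
    exact mul_le_mul_of_nonneg_right (a.norm_coe_le_norm v) (norm_nonneg _)⟩

/-- `C^m` is isomorphic to a complemented subspace of `l^p` -/
lemma pcomp_fin (p : ℝ≥0∞) [Fact (1 ≤ p)] (m : ℕ) : PComp p (Fin m → ℂ) := by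
  classical
  let i₀ : (Fin m → ℂ) →ₗ[ℂ] LP p := ∑ j : Fin m,
    (lp.singleContinuousLinearMap ℂ (fun _ : ℕ => ℂ) p (j : ℕ)).toLinearMap ∘ₗ
      LinearMap.proj j
  let q₀ : LP p →L[ℂ] (Fin m → ℂ) := ContinuousLinearMap.pi fun j : Fin m =>
    lp.evalCLM ℂ (fun _ : ℕ => ℂ) p (j : ℕ)
  refine ⟨LinearMap.toContinuousLinearMap i₀, q₀, ?_⟩
  refine ContinuousLinearMap.ext fun y => funext fun j => ?_
  have h1 : ∀ x : LP p, q₀ x j = x (j : ℕ) := fun x => rfl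
  change q₀ (i₀ y) j = y j
  have h2 : i₀ y = ∑ j : Fin m, lp.single p (j : ℕ) (y j) := by
    simp [i₀]
  rw [h1, h2]
  rw [lp.coeFn_sum, Finset.sum_apply, Finset.sum_eq_single j]
  · exact lp.single_apply_self _ _ _
  · intro k _ hk
    refine lp.single_apply_ne _ _ _ ?_
    intro h
    exact hk (Fin.ext h.symm)
  · intro h
    exact absurd (Finset.mem_univ j) h

section Core

variable {M : Set ℂ} [CompactSpace M]
variable {X : Type} [NormedAddCommGroup X] [NormedSpace ℂ X]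

/-- From the absorbing extension: a representation `ρ` and an isomorphism `Φ : X × X ≃ X` such
that `ρ a` is, modulo compact operators, `Φ (T ⊕ R) Φ⁻¹` with lifts `T`, `R` of `φ a`, `φ' a`. -/
lemma exists_split {θ φ : C(M, ℂ) →ₐ[ℂ] Calkin X} (hθ : IsTheta θ) (hφ : IsIsoExt φ) :
    ∃ (ρ : Rep M X) (C : ℝ) (φ' : C(M, ℂ) →ₐ[ℂ] Calkin X) (Φ : (X × X) ≃L[ℂ] X), 1 ≤ C ∧
      (∀ a, C⁻¹ * ‖a‖ ≤ ‖ρ.hom a‖) ∧ (∀ a, C⁻¹ * ‖a‖ ≤ ‖calkinMk X (ρ.hom a)‖) ∧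
      ∀ a (T R : X →L[ℂ] X), calkinMk X T = φ a → calkinMk X R = φ' a →
        EqK (ρ.hom a) (conjSum Φ T R) := by
  obtain ⟨⟨⟨C₁, hC₁, b1⟩, ρ, ⟨C₂, hC₂, b2⟩, hρ⟩, -, hsum⟩ := hθ
  obtain ⟨φ', -, S, hS⟩ := hsum φ hφ
  obtain ⟨W, hW⟩ := ExtEquiv.exists_iso hS
  have hC10 : 0 < C₁ := zero_lt_one.trans_le hC₁
  have hC20 : 0 < C₂ := zero_lt_one.trans_le hC₂
  have hi1 : (C₁ + C₂)⁻¹ ≤ C₁⁻¹ := inv_anti₀ hC10 (by linarith)
  have hi2 : (C₁ + C₂)⁻¹ ≤ C₂⁻¹ := inv_anti₀ hC20 (by linarith)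
  refine ⟨⟨ρ, C₂, fun a => (b2 a).2⟩, C₁ + C₂, φ', S.trans W, by linarith, fun a => ?_,
    fun a => ?_, fun a T R hT hR => ?_⟩
  · exact (mul_le_mul_of_nonneg_right hi2 (norm_nonneg a)).trans (b2 a).1
  · change _ ≤ ‖calkinMk X (ρ a)‖
    rw [← hρ a]
    exact (mul_le_mul_of_nonneg_right hi1 (norm_nonneg a)).trans (b1 a).1
  · have h1 := hW a (conjSum S T R) (extSum_apply_mk S φ φ' a hT hR).symm
    rw [hρ a, calkinMk_eq_iff] at h1
    exact h1.symm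

/-- the corner operator of the first summand -/
lemma cornerOp_eqK (ρ : Rep M X) (Φ : (X × X) ≃L[ℂ] X) (μ : ℂ) (T₀ R₀ : X →L[ℂ] X)
    (h1 : EqK (ρ.hom (zfun M)) (conjSum Φ T₀ R₀)) :
    EqK (cornerOp ρ (conjSum Φ (ContinuousLinearMap.id ℂ X) 0) μ)
      ((Φ : (X × X) →L[ℂ] X) ∘L ((T₀ - μ • ContinuousLinearMap.id ℂ X).prodMap
        (ContinuousLinearMap.id ℂ X)) ∘L (Φ.symm : X →L[ℂ] (X × X))) := by
  have h5 : EqK (conjSum Φ (ContinuousLinearMap.id ℂ X) 0 ∘L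
      (ρ.hom (zfun M) - μ • ContinuousLinearMap.id ℂ X) ∘L
        conjSum Φ (ContinuousLinearMap.id ℂ X) 0)
      (conjSum Φ (ContinuousLinearMap.id ℂ X) 0 ∘L
      (conjSum Φ T₀ R₀ - μ • ContinuousLinearMap.id ℂ X) ∘L
        conjSum Φ (ContinuousLinearMap.id ℂ X) 0) :=
    ((h1.sub (EqK.refl _)).comp_right _).comp_left _
  refine EqK.trans (h5.add (EqK.refl (ContinuousLinearMap.id ℂ X -
    conjSum Φ (ContinuousLinearMap.id ℂ X) 0))) (EqK.of_eq ?_)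
  refine ContinuousLinearMap.ext fun x => ?_
  obtain ⟨⟨u, v⟩, rfl⟩ := Φ.surjective x
  have g0 : ∀ u v, conjSum Φ (ContinuousLinearMap.id ℂ X) 0 (Φ (u, v)) = Φ (u, 0) := by
    intro u v
    change Φ ((Φ.symm (Φ (u, v))).1, 0) = _
    rw [Φ.symm_apply_apply]
  have g2 : conjSum Φ T₀ R₀ (Φ (u, 0)) = Φ (T₀ u, 0) := by
    change Φ (T₀ (Φ.symm (Φ (u, 0))).1, R₀ (Φ.symm (Φ (u, 0))).2) = _
    rw [Φ.symm_apply_apply, map_zero]
  have g3 : conjSum Φ T₀ R₀ (Φ (u, 0)) - μ • Φ (u, 0) = Φ (T₀ u - μ • u, 0) := by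
    rw [g2, ← map_smul, ← map_sub]
    congr 1
    change (T₀ u - μ • u, (0 : X) - μ • 0) = _
    simp
  change conjSum Φ (ContinuousLinearMap.id ℂ X) 0 (conjSum Φ T₀ R₀
    (conjSum Φ (ContinuousLinearMap.id ℂ X) 0 (Φ (u, v))) -
      μ • (conjSum Φ (ContinuousLinearMap.id ℂ X) 0 (Φ (u, v)))) +
      (Φ (u, v) - conjSum Φ (ContinuousLinearMap.id ℂ X) 0 (Φ (u, v)))
    = Φ (T₀ (Φ.symm (Φ (u, v))).1 - μ • (Φ.symm (Φ (u, v))).1, (Φ.symm (Φ (u, v))).2)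
  rw [g0 u v, g3, g0, Φ.symm_apply_apply, ← map_sub, ← map_add]
  congr 1
  change (T₀ u - μ • u + (u - u), (0 : X) + (v - 0)) = (T₀ u - μ • u, v)
  simp

lemma indexZero_corner (ρ : Rep M X) (Φ : (X × X) ≃L[ℂ] X) (μ : ℂ) (T₀ R₀ : X →L[ℂ] X)
    (h1 : EqK (ρ.hom (zfun M)) (conjSum Φ T₀ R₀)) (U : X ≃L[ℂ] X)
    (hU : EqK (U : X →L[ℂ] X) (T₀ - μ • 1)) :
    IndexZero (cornerOp ρ (conjSum Φ (ContinuousLinearMap.id ℂ X) 0) μ) := by
  have h4 : IndexZero ((T₀ - μ • ContinuousLinearMap.id ℂ X).prodMap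
      (ContinuousLinearMap.id ℂ X)) := by
    have hU' : EqK (U : X →L[ℂ] X) (T₀ - μ • ContinuousLinearMap.id ℂ X) := hU
    have h5 := hU'.prodMap (EqK.refl (ContinuousLinearMap.id ℂ X))
    have h6 : ((unitOf (U.prodCongr (ContinuousLinearEquiv.refl ℂ X)) :
        (X × X →L[ℂ] X × X)ˣ) : X × X →L[ℂ] X × X) =
        (U : X →L[ℂ] X).prodMap (ContinuousLinearMap.id ℂ X) :=
      ContinuousLinearMap.ext fun x => rfl
    refine ⟨unitOf (U.prodCongr (ContinuousLinearEquiv.refl ℂ X)), ?_⟩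
    rw [h6]
    exact h5
  exact (h4.conj Φ).congr (cornerOp_eqK ρ Φ μ T₀ R₀ h1).symm

end Core

/-- The intertwiner obtained from the core theorem. -/
lemma exists_intertwiner (hIX : IXStmt) (hAP : APStmt) (p : ℝ≥0∞) [Fact (1 ≤ p)]
    (hp : p ≠ ∞) (hMC : MCStmt p) (M : Set ℂ) [CompactSpace M] (hM : M.Nonempty)
    (φ φ' : C(M, ℂ) →ₐ[ℂ] Calkin (LP p)) (h0 : ZeroIndex φ) (ρ : Rep M (LP p))
    (Φ : (LP p × LP p) ≃L[ℂ] LP p)
    (h : ∀ a (T R : LP p →L[ℂ] LP p), calkinMk (LP p) T = φ a → calkinMk (LP p) R = φ' a →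
        EqK (ρ.hom a) (conjSum Φ T R)) :
    ∃ (σ₁ σ₂ : Rep M (LP p)) (W : (LP p × LP p) →L[ℂ] LP p), EssInv W ∧
      ∀ a (T : LP p →L[ℂ] LP p), calkinMk (LP p) T = φ a →
        EqK (W ∘L (T.prodMap (σ₁.hom a))) (σ₂.hom a ∘L W) := by
  have hap : AP (LP p) := hAP.1 p hp (fun _ => ℂ)
  -- the idempotent
  let e : LP p →L[ℂ] LP p := conjSum Φ (ContinuousLinearMap.id ℂ (LP p)) 0
  let j : LP p →L[ℂ] LP p := (Φ : (LP p × LP p) →L[ℂ] LP p) ∘L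
    ContinuousLinearMap.inl ℂ (LP p) (LP p)
  let k : LP p →L[ℂ] LP p := ContinuousLinearMap.fst ℂ (LP p) (LP p) ∘L
    (Φ.symm : LP p →L[ℂ] (LP p × LP p))
  have hjk : j ∘L k = e := by
    refine ContinuousLinearMap.ext fun x => ?_
    rfl
  have hkj : k ∘L j = ContinuousLinearMap.id ℂ (LP p) := by
    refine ContinuousLinearMap.ext fun x => ?_
    change (Φ.symm (Φ (x, 0))).1 = x
    rw [Φ.symm_apply_apply]
  have hee : e ∘L e = e := by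
    refine ContinuousLinearMap.ext fun x => ?_
    change Φ ((Φ.symm (Φ ((Φ.symm x).1, 0))).1, 0) = Φ ((Φ.symm x).1, 0)
    rw [Φ.symm_apply_apply]
  have heT : ∀ T R : LP p →L[ℂ] LP p, e ∘L conjSum Φ T R = conjSum Φ T 0 := by
    intro T R
    refine ContinuousLinearMap.ext fun x => ?_
    change Φ ((Φ.symm (Φ (T (Φ.symm x).1, R (Φ.symm x).2))).1, 0) = Φ (T (Φ.symm x).1, 0)
    rw [Φ.symm_apply_apply]
  have hTe : ∀ T R : LP p →L[ℂ] LP p, conjSum Φ T R ∘L e = conjSum Φ T 0 := by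
    intro T R
    refine ContinuousLinearMap.ext fun x => ?_
    change Φ (T (Φ.symm (Φ ((Φ.symm x).1, 0))).1, R (Φ.symm (Φ ((Φ.symm x).1, 0))).2)
      = Φ (T (Φ.symm x).1, 0)
    rw [Φ.symm_apply_apply, map_zero]
  have hcorner : Corner ρ e := by
    refine ⟨hee, fun a => ?_⟩
    obtain ⟨T, hT⟩ := calkinMk_surjective (φ a)
    obtain ⟨R, hR⟩ := calkinMk_surjective (φ' a)
    have h1 := h a T R hT hR
    have h2 := (h1.comp_left e).trans (EqK.of_eq (heT T R))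
    have h3 := (h1.comp_right e).trans (EqK.of_eq (hTe T R))
    exact h2.trans h3.symm
  -- the index
  have hindex : ∀ μ : ℂ, μ ∉ M → IndexZero (cornerOp ρ e μ) := by
    intro μ hμ
    obtain ⟨T₀, hT₀⟩ := calkinMk_surjective (φ (zfun M))
    obtain ⟨R₀, hR₀⟩ := calkinMk_surjective (φ' (zfun M))
    have h2 : calkinMk (LP p) (T₀ - μ • 1) = φ (zfun M) - μ • 1 := by
      rw [map_sub, hT₀, map_smul, map_one]
    have h3 := essInv_of_ext φ hμ _ h2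
    obtain ⟨U, hU⟩ := hIX.1 (LP p) (LP p) hap hap _ h3 (h0 μ hμ _ h2)
    exact indexZero_corner ρ Φ μ T₀ R₀ (h (zfun M) T₀ R₀ hT₀ hR₀) U hU
  obtain ⟨σ₁, σ₂, A, B, hBA, hAB, hA, hB, hint⟩ := hMC M hM ρ e hcorner hindex
  let I := ContinuousLinearMap.id ℂ (LP p)
  refine ⟨σ₁, σ₂, A ∘L (j.prodMap I), ⟨(k.prodMap I) ∘L B, ?_, ?_⟩, fun a T hT => ?_⟩
  · -- (k × 1) B A (j × 1) ~ 1
    have h1 : EqK ((k.prodMap I) ∘L (B ∘L A) ∘L (j.prodMap I))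
        ((k.prodMap I) ∘L (e.prodMap I) ∘L (j.prodMap I)) :=
      (hBA.comp_right (j.prodMap I)).comp_left (k.prodMap I)
    refine EqK.trans h1 (EqK.of_eq ?_)
    refine ContinuousLinearMap.ext fun x => ?_
    change (k (e (j x.1)), x.2) = x
    have h2 : k (e (j x.1)) = x.1 := by
      rw [← hjk]
      change (k ∘L j) ((k ∘L j) x.1) = x.1
      rw [hkj]
      rfl
    rw [h2]
  · have h1 : (A ∘L (j.prodMap I)) ∘L ((k.prodMap I) ∘L B) = (A ∘L (e.prodMap I)) ∘L B := by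
      rw [← hjk]
      rfl
    refine EqK.trans (EqK.of_eq h1) (EqK.trans (hA.comp_right B) hAB)
  · obtain ⟨R, hR⟩ := calkinMk_surjective (φ' a)
    have h1 : EqK (ρ.hom a ∘L j) (j ∘L T) := by
      refine EqK.trans ((h a T R hT hR).comp_right j) (EqK.of_eq ?_)
      refine ContinuousLinearMap.ext fun x => ?_
      change Φ (T (Φ.symm (Φ (x, 0))).1, R (Φ.symm (Φ (x, 0))).2) = Φ (T x, 0)
      rw [Φ.symm_apply_apply, map_zero]
    have h2 : EqK (A ∘L ((j ∘L T).prodMap (σ₁.hom a)))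
        (A ∘L ((ρ.hom a ∘L j).prodMap (σ₁.hom a))) :=
      (h1.symm.prodMap (EqK.refl (σ₁.hom a))).comp_left A
    have h3 : EqK ((A ∘L (ρ.prod σ₁).hom a) ∘L (j.prodMap I))
        ((σ₂.hom a ∘L A) ∘L (j.prodMap I)) := (hint a).comp_right (j.prodMap I)
    exact h2.trans h3

section Final

variable {M : Set ℂ} [CompactSpace M]
variable {X E F : Type} [NormedAddCommGroup X] [NormedSpace ℂ X]
  [NormedAddCommGroup E] [NormedSpace ℂ E] [NormedAddCommGroup F] [NormedSpace ℂ F]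

/-- the final isomorphism -/
lemma extEquiv_final (φ : C(M, ℂ) →ₐ[ℂ] Calkin X) (σ₁ σ₂ ρ : Rep M X) (χ : Rep M E)
    (χ' : Rep M F) (V : ((X × X) × E) ≃L[ℂ] (X × F))
    (hV : ∀ a (T : X →L[ℂ] X), calkinMk X T = φ a →
      EqK ((V : ((X × X) × E) →L[ℂ] (X × F)) ∘L ((T.prodMap (σ₁.hom a)).prodMap (χ.hom a)))
        (((σ₂.hom a).prodMap (χ'.hom a)) ∘L (V : ((X × X) × E) →L[ℂ] (X × F))))
    (P : (X × (E × X)) ≃L[ℂ] X) (Q : ((X × F) × X) ≃L[ℂ] X) (S : (X × X) ≃L[ℂ] X) :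
    ExtEquiv (extSum S φ ((calkinMk X).comp ((σ₁.prod (χ.prod ρ)).conj P).hom))
      ((calkinMk X).comp (((σ₂.prod χ').prod ρ).conj Q).hom) := by
  let N : X →L[ℂ] (((X × X) × E) × X) :=
    ((ContinuousLinearEquiv.prodAssoc ℂ (X × X) E X).symm :
      ((X × X) × (E × X)) →L[ℂ] (((X × X) × E) × X)) ∘L
      ((ContinuousLinearEquiv.prodAssoc ℂ X X (E × X)).symm :
        (X × (X × (E × X))) →L[ℂ] ((X × X) × (E × X))) ∘L
      ((ContinuousLinearMap.id ℂ X).prodMap (P.symm : X →L[ℂ] (X × (E × X)))) ∘L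
      (S.symm : X →L[ℂ] (X × X))
  refine extEquiv_of_eqK ((((S.symm.trans ((ContinuousLinearEquiv.refl ℂ X).prodCongr
    P.symm)).trans (ContinuousLinearEquiv.prodAssoc ℂ X X (E × X)).symm).trans
    (ContinuousLinearEquiv.prodAssoc ℂ (X × X) E X).symm).trans
    ((V.prodCongr (ContinuousLinearEquiv.refl ℂ X)).trans Q)) fun a => ?_
  obtain ⟨T, hT⟩ := calkinMk_surjective (φ a)
  refine ⟨conjSum S T (((σ₁.prod (χ.prod ρ)).conj P).hom a),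
    (((σ₂.prod χ').prod ρ).conj Q).hom a, (extSum_apply_mk S φ _ a hT rfl).symm, rfl, ?_⟩
  have h1 := (((hV a T hT).prodMap (EqK.refl (ρ.hom a))).comp_right N).comp_left
    (Q : ((X × F) × X) →L[ℂ] X)
  refine EqK.trans (EqK.of_eq ?_) (EqK.trans h1.symm (EqK.of_eq ?_))
  · refine ContinuousLinearMap.ext fun x => ?_
    change Q ((σ₂.hom a (Q.symm (Q (V (((S.symm x).1, (P.symm (S.symm x).2).1),
        (P.symm (S.symm x).2).2.1), (P.symm (S.symm x).2).2.2))).1.1,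
      χ'.hom a (Q.symm (Q (V (((S.symm x).1, (P.symm (S.symm x).2).1),
        (P.symm (S.symm x).2).2.1), (P.symm (S.symm x).2).2.2))).1.2),
      ρ.hom a (Q.symm (Q (V (((S.symm x).1, (P.symm (S.symm x).2).1),
        (P.symm (S.symm x).2).2.1), (P.symm (S.symm x).2).2.2))).2) =
      Q ((σ₂.hom a (V (((S.symm x).1, (P.symm (S.symm x).2).1),
        (P.symm (S.symm x).2).2.1)).1, χ'.hom a (V (((S.symm x).1, (P.symm (S.symm x).2).1),
        (P.symm (S.symm x).2).2.1)).2), ρ.hom a (P.symm (S.symm x).2).2.2)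
    rw [Q.symm_apply_apply]
  · refine ContinuousLinearMap.ext fun x => ?_
    change Q (V ((T (S.symm x).1, σ₁.hom a (P.symm (S.symm x).2).1),
        χ.hom a (P.symm (S.symm x).2).2.1), ρ.hom a (P.symm (S.symm x).2).2.2) =
      Q (V (((S.symm (S (T (S.symm x).1, P (σ₁.hom a (P.symm (S.symm x).2).1,
            (χ.hom a (P.symm (S.symm x).2).2.1, ρ.hom a (P.symm (S.symm x).2).2.2))))).1,
          (P.symm (S.symm (S (T (S.symm x).1, P (σ₁.hom a (P.symm (S.symm x).2).1,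
            (χ.hom a (P.symm (S.symm x).2).2.1,
              ρ.hom a (P.symm (S.symm x).2).2.2))))).2).1),
          (P.symm (S.symm (S (T (S.symm x).1, P (σ₁.hom a (P.symm (S.symm x).2).1,
            (χ.hom a (P.symm (S.symm x).2).2.1,
              ρ.hom a (P.symm (S.symm x).2).2.2))))).2).2.1),
          (P.symm (S.symm (S (T (S.symm x).1, P (σ₁.hom a (P.symm (S.symm x).2).1,
            (χ.hom a (P.symm (S.symm x).2).2.1,
              ρ.hom a (P.symm (S.symm x).2).2.2))))).2).2.2)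
    simp only [S.symm_apply_apply, P.symm_apply_apply]

end Final

/-- Module STAB. -/
theorem stab (hIX : IXStmt) (hAP : APStmt) (hPel : PelStmt) : StabStmt := by
  intro p _ hp1 hp hMC M _ hM θ φ hθ hφ h0
  obtain ⟨ρ, C, φ', Φ, hC, hρ1, hρ2, hsplit⟩ := exists_split hθ hφ
  obtain ⟨σ₁, σ₂, W, hW, hint⟩ := exists_intertwiner hIX hAP p hp hMC M hM φ φ' h0 ρ Φ hsplit
  obtain ⟨-, ⟨S⟩, hPel3, -⟩ := hPel p hp
  -- the index of `W`
  obtain ⟨m, n, hmn⟩ : ∃ m n : ℕ, findex W + ((m : ℤ) - n) = 0 := by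
    refine ⟨(-findex W).toNat, (findex W).toNat, ?_⟩
    omega
  have hapX : AP (LP p) := hAP.1 p hp (fun _ => ℂ)
  have hapXX : AP (LP p × LP p) := hAP.2.2 _ _ hapX hapX
  have hapE : AP (Fin m → ℂ) := ap_fd
  have hapF : AP (Fin n → ℂ) := ap_fd
  have hapXXE : AP ((LP p × LP p) × (Fin m → ℂ)) := hAP.2.2 _ _ hapXX hapE
  have hapXF : AP (LP p × (Fin n → ℂ)) := hAP.2.2 _ _ hapX hapF
  have hZ : EssInv (0 : (Fin m → ℂ) →L[ℂ] (Fin n → ℂ)) := essInv_fd _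
  have hWZ : EssInv (W.prodMap (0 : (Fin m → ℂ) →L[ℂ] (Fin n → ℂ))) := hW.prodMap hZ
  have hind : findex (W.prodMap (0 : (Fin m → ℂ) →L[ℂ] (Fin n → ℂ))) = 0 := by
    rw [hIX.2.2.1 _ _ _ _ hapXX hapX hapE hapF W _ hW hZ, findex_zero_fd]
    simpa using hmn
  obtain ⟨V, hV⟩ := hIX.1 _ _ hapXXE hapXF _ hWZ hind
  obtain ⟨v₀, hv₀⟩ := hM
  let χ : Rep M (Fin m → ℂ) := scal ⟨v₀, hv₀⟩ (Fin m → ℂ)
  let χ' : Rep M (Fin n → ℂ) := scal ⟨v₀, hv₀⟩ (Fin n → ℂ)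
  obtain ⟨E₁⟩ := hPel3 (Fin m → ℂ) (pcomp_fin p m)
  obtain ⟨F₁⟩ := hPel3 (Fin n → ℂ) (pcomp_fin p n)
  let P : (LP p × ((Fin m → ℂ) × LP p)) ≃L[ℂ] LP p :=
    ((ContinuousLinearEquiv.refl ℂ (LP p)).prodCongr E₁).trans S
  let Q : ((LP p × (Fin n → ℂ)) × LP p) ≃L[ℂ] LP p :=
    (ContinuousLinearEquiv.prodAssoc ℂ (LP p) (Fin n → ℂ) (LP p)).trans
      (((ContinuousLinearEquiv.refl ℂ (LP p)).prodCongr F₁).trans S)
  refine ⟨(calkinMk (LP p)).comp ((σ₁.prod (χ.prod ρ)).conj P).hom,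
    (calkinMk (LP p)).comp (((σ₂.prod χ').prod ρ).conj Q).hom, ?_, ?_, S, ?_⟩
  · refine isTrivialExt_of_rep _
      ((ContinuousLinearMap.snd ℂ (Fin m → ℂ) (LP p) ∘L
        ContinuousLinearMap.snd ℂ (LP p) ((Fin m → ℂ) × LP p)) ∘L
          (P.symm : LP p →L[ℂ] (LP p × ((Fin m → ℂ) × LP p))))
      ((P : (LP p × ((Fin m → ℂ) × LP p)) →L[ℂ] LP p) ∘L
        (ContinuousLinearMap.inr ℂ (LP p) ((Fin m → ℂ) × LP p) ∘L
          ContinuousLinearMap.inr ℂ (Fin m → ℂ) (LP p))) ρ.hom (fun a => ?_) C hC hρ1 hρ2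
    refine ContinuousLinearMap.ext fun x => ?_
    change ρ.hom a x = (P.symm (P (σ₁.hom a (P.symm (P (0, (0, x)))).1,
      (χ.hom a (P.symm (P (0, (0, x)))).2.1, ρ.hom a (P.symm (P (0, (0, x)))).2.2)))).2.2
    rw [P.symm_apply_apply, P.symm_apply_apply]
  · refine isTrivialExt_of_rep _
      (ContinuousLinearMap.snd ℂ (LP p × (Fin n → ℂ)) (LP p) ∘L
          (Q.symm : LP p →L[ℂ] ((LP p × (Fin n → ℂ)) × LP p)))
      ((Q : ((LP p × (Fin n → ℂ)) × LP p) →L[ℂ] LP p) ∘L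
        ContinuousLinearMap.inr ℂ (LP p × (Fin n → ℂ)) (LP p)) ρ.hom (fun a => ?_) C hC hρ1 hρ2
    refine ContinuousLinearMap.ext fun x => ?_
    change ρ.hom a x = (Q.symm (Q ((σ₂.hom a (Q.symm (Q (0, x))).1.1,
      χ'.hom a (Q.symm (Q (0, x))).1.2), ρ.hom a (Q.symm (Q (0, x))).2))).2
    rw [Q.symm_apply_apply, Q.symm_apply_apply]
  · refine extEquiv_final φ σ₁ σ₂ ρ χ χ' V (fun a T hT => ?_) P Q S
    have h1 : EqK ((W.prodMap (0 : (Fin m → ℂ) →L[ℂ] (Fin n → ℂ))) ∘L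
        ((T.prodMap (σ₁.hom a)).prodMap (χ.hom a)))
        (((σ₂.hom a).prodMap (χ'.hom a)) ∘L
          (W.prodMap (0 : (Fin m → ℂ) →L[ℂ] (Fin n → ℂ)))) := by
      rw [prodMap_comp_prodMap, prodMap_comp_prodMap]
      exact (hint a T hT).prodMap (eqK_fd_dom _ _)
    exact (hV.comp_right _).trans (h1.trans (hV.symm.comp_left _))

end Pool.Agent.H90.BDFP
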