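import Pool.Agent.H33.BDFP.GStmts
import Pool.Agent.H19.BDFP.PEL
import Pool.Agent.H90.BDFP.STAB

attribute [local instance] Pool.Agent.H33.BDFP.NV.instNACG Pool.Agent.H33.BDFP.NV.instModule
  Pool.Agent.H33.BDFP.NV.instNormedSpace Pool.Agent.H33.BDFP.NV.instFD
  Pool.Agent.H33.BDFP.NV.instComplete

/-!
Module MCG of the project BDFP2: two extensions with equal indices are stably equivalent by an
isomorphism.
-/

open scoped ENNReal NNReal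

noncomputable section

namespace Pool.Agent.H90.BDFP

open Pool.Agent.H33.BDFP

section Absorb

variable {p : ℝ≥0∞} [Fact (1 ≤ p)] {M : Set ℂ} [CompactSpace M]
variable {X : Type} [NormedAddCommGroup X] [NormedSpace ℂ X]

/-- the infinite direct sum of copies of a representation -/
def infRep (p : ℝ≥0∞) [Fact (1 ≤ p)] (τ : Rep M X) : Rep M (lp (fun _ : ℕ => X) p) where
  hom :=
    { toFun := fun a => lp.mapCLM p (fun _ => τ.hom a) (norm_nonneg (τ.hom a)) (fun _ => le_rfl)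
      map_add' := fun a b => by
        refine ContinuousLinearMap.ext fun x => ?_
        refine lp.ext (funext fun i => ?_)
        change τ.hom (a + b) (x i) = τ.hom a (x i) + τ.hom b (x i)
        rw [map_add]; rfl
      map_mul' := fun a b => by
        refine ContinuousLinearMap.ext fun x => ?_
        refine lp.ext (funext fun i => ?_)
        change τ.hom (a * b) (x i) = τ.hom a (τ.hom b (x i))
        rw [map_mul]; rfl
      map_one' := by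
        refine ContinuousLinearMap.ext fun x => ?_
        refine lp.ext (funext fun i => ?_)
        change τ.hom 1 (x i) = x i
        rw [map_one]; rfl
      map_zero' := by
        refine ContinuousLinearMap.ext fun x => ?_
        refine lp.ext (funext fun i => ?_)
        change τ.hom 0 (x i) = 0
        rw [map_zero]; rfl
      commutes' := fun c => by
        refine ContinuousLinearMap.ext fun x => ?_
        refine lp.ext (funext fun i => ?_)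
        change τ.hom (algebraMap ℂ C(M, ℂ) c) (x i) = c • x i
        rw [AlgHom.commutes]; rfl }
  bdd := by
    obtain ⟨C, hC⟩ := τ.bdd
    refine ⟨C, fun a => ?_⟩
    exact (lp.norm_mapCLM_le p _ (norm_nonneg (τ.hom a)) (fun _ => le_rfl)).trans (hC a)

lemma infRep_apply (τ : Rep M X) (a : C(M, ℂ)) (x : lp (fun _ : ℕ => X) p) (i : ℕ) :
    (infRep p τ).hom a x i = τ.hom a (x i) := rfl

/-- the infinite sum absorbs one copy -/
lemma exists_absorb_inf (hp : p ≠ ∞) (τ : Rep M X) :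
    ∃ E : (X × lp (fun _ : ℕ => X) p) ≃L[ℂ] lp (fun _ : ℕ => X) p,
      ∀ a x y, E (τ.hom a x, (infRep p τ).hom a y) = (infRep p τ).hom a (E (x, y)) := by
  obtain ⟨Rs, hR0, hR1⟩ := Pool.Agent.H19.BDFP.exists_right (F := X) hp
  obtain ⟨Ls, hL⟩ := Pool.Agent.H19.BDFP.exists_left (F := X) hp
  let S0 : X →L[ℂ] lp (fun _ : ℕ => X) p :=
    lp.singleContinuousLinearMap ℂ (fun _ : ℕ => X) p 0
  have hS00 : ∀ y : X, S0 y 0 = y := fun y =>
    lp.single_apply_self (E := fun _ : ℕ => X) p 0 y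
  have hS01 : ∀ (y : X) n, S0 y (n + 1) = 0 := fun y n =>
    lp.single_apply_ne (E := fun _ : ℕ => X) p 0 y (Nat.succ_ne_zero n)
  let A : (X × lp (fun _ : ℕ => X) p) →L[ℂ] lp (fun _ : ℕ => X) p :=
    S0 ∘L ContinuousLinearMap.fst ℂ _ _ + Rs ∘L ContinuousLinearMap.snd ℂ _ _
  let B : lp (fun _ : ℕ => X) p →L[ℂ] (X × lp (fun _ : ℕ => X) p) :=
    (lp.evalCLM ℂ (fun _ : ℕ => X) p 0).prod Ls
  have hA0 : ∀ z, A z 0 = z.1 := fun z => by
    change S0 z.1 0 + Rs z.2 0 = z.1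
    rw [hS00, hR0, add_zero]
  have hA1 : ∀ z n, A z (n + 1) = z.2 n := fun z n => by
    change S0 z.1 (n + 1) + Rs z.2 (n + 1) = _
    rw [hS01, hR1, zero_add]
  have hB1 : ∀ x, (B x).1 = x 0 := fun x => rfl
  have hB2 : ∀ x n, (B x).2 n = x (n + 1) := fun x n => hL x n
  refine ⟨ContinuousLinearEquiv.equivOfInverse A B (fun z => ?_) (fun x => ?_), fun a x y => ?_⟩
  · refine Prod.ext ?_ (lp.ext (funext fun n => ?_))
    · rw [hB1, hA0]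
    · rw [hB2, hA1]
  · refine lp.ext (funext fun n => ?_)
    cases n with
    | zero => rw [hA0, hB1]
    | succ n => rw [hA1, hB2]
  · refine lp.ext (funext fun n => ?_)
    change A (τ.hom a x, (infRep p τ).hom a y) n = τ.hom a (A (x, y) n)
    cases n with
    | zero => rw [hA0, hA0]
    | succ n =>
      rw [hA1, hA1]
      rfl

/-- a representation which absorbs `α` -/
lemma exists_absorb (hPel : PelStmt) (hp : p ≠ ∞) (α : Rep M (LP p)) :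
    ∃ (α' : Rep M (LP p)) (E : (LP p × LP p) ≃L[ℂ] LP p),
      ∀ a x y, E (α.hom a x, α'.hom a y) = α'.hom a (E (x, y)) := by
  obtain ⟨⟨Φ⟩, -⟩ := hPel p hp
  obtain ⟨E, hE⟩ := exists_absorb_inf (p := p) hp α
  refine ⟨(infRep p α).conj Φ,
    (((ContinuousLinearEquiv.refl ℂ (LP p)).prodCongr Φ.symm).trans E).trans Φ, fun a x y => ?_⟩
  obtain ⟨y, rfl⟩ := Φ.surjective y
  rw [Rep.conj_apply]
  change Φ (E (α.hom a x, Φ.symm (Φ ((infRep p α).hom a y)))) =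
    ((infRep p α).conj Φ).hom a (Φ (E (x, Φ.symm (Φ y))))
  rw [Φ.symm_apply_apply, Φ.symm_apply_apply, Rep.conj_apply, hE]

end Absorb

section Index

variable {X Y Z W : Type} [NormedAddCommGroup X] [NormedSpace ℂ X]
  [NormedAddCommGroup Y] [NormedSpace ℂ Y] [NormedAddCommGroup Z] [NormedSpace ℂ Z]
  [NormedAddCommGroup W] [NormedSpace ℂ W]

lemma findex_equiv (U : X ≃L[ℂ] Y) : findex (U : X →L[ℂ] Y) = 0 := by
  unfold findex
  have h1 : LinearMap.ker ((U : X →L[ℂ] Y)).toLinearMap = ⊥ :=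
    LinearMap.ker_eq_bot.2 U.injective
  have h2 : LinearMap.range ((U : X →L[ℂ] Y)).toLinearMap = ⊤ :=
    LinearMap.range_eq_top.2 U.surjective
  rw [h1, h2, finrank_bot]
  have h3 : Module.finrank ℂ (Y ⧸ (⊤ : Submodule ℂ Y)) = 0 := Module.finrank_zero_of_subsingleton
  rw [h3]
  simp

lemma findex_id : findex (ContinuousLinearMap.id ℂ X) = 0 :=
  findex_equiv (ContinuousLinearEquiv.refl ℂ X)

lemma essInv_id : EssInv (ContinuousLinearMap.id ℂ X) :=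
  EssInv.of_equiv (ContinuousLinearEquiv.refl ℂ X)

lemma essInv_of_prodMap_left {S : X →L[ℂ] Y} {T : Z →L[ℂ] W} (h : EssInv (S.prodMap T)) :
    EssInv S := by
  obtain ⟨R, h1, h2⟩ := h
  refine ⟨ContinuousLinearMap.fst ℂ X Z ∘L R ∘L ContinuousLinearMap.inl ℂ Y W, ?_, ?_⟩
  · have h3 := (h1.comp_right (ContinuousLinearMap.inl ℂ X Z)).comp_left
      (ContinuousLinearMap.fst ℂ X Z)
    refine EqK.trans (EqK.of_eq ?_) (h3.trans (EqK.of_eq ?_))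
    · refine ContinuousLinearMap.ext fun x => ?_
      change (R (S x, 0)).1 = (R (S x, T 0)).1
      rw [map_zero]
    · exact ContinuousLinearMap.ext fun x => rfl
  · have h3 := (h2.comp_right (ContinuousLinearMap.inl ℂ Y W)).comp_left
      (ContinuousLinearMap.fst ℂ Y W)
    refine EqK.trans (EqK.of_eq ?_) (h3.trans (EqK.of_eq ?_))
    · exact ContinuousLinearMap.ext fun x => rfl
    · exact ContinuousLinearMap.ext fun x => rfl

lemma essInv_of_prodMap_right {S : X →L[ℂ] Y} {T : Z →L[ℂ] W} (h : EssInv (S.prodMap T)) :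
    EssInv T := by
  obtain ⟨R, h1, h2⟩ := h
  refine ⟨ContinuousLinearMap.snd ℂ X Z ∘L R ∘L ContinuousLinearMap.inr ℂ Y W, ?_, ?_⟩
  · have h3 := (h1.comp_right (ContinuousLinearMap.inr ℂ X Z)).comp_left
      (ContinuousLinearMap.snd ℂ X Z)
    refine EqK.trans (EqK.of_eq ?_) (h3.trans (EqK.of_eq ?_))
    · refine ContinuousLinearMap.ext fun x => ?_
      change (R (0, T x)).2 = (R (S 0, T x)).2
      rw [map_zero]
    · exact ContinuousLinearMap.ext fun x => rfl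
  · have h3 := (h2.comp_right (ContinuousLinearMap.inr ℂ Y W)).comp_left
      (ContinuousLinearMap.snd ℂ Y W)
    refine EqK.trans (EqK.of_eq ?_) (h3.trans (EqK.of_eq ?_))
    · exact ContinuousLinearMap.ext fun x => rfl
    · exact ContinuousLinearMap.ext fun x => rfl

lemma EqK.prod' {S T : X →L[ℂ] Y} {S' T' : X →L[ℂ] Z} (h : EqK S T) (h' : EqK S' T') :
    EqK (S.prod S') (T.prod T') := by
  have h1 := (h.comp_left (ContinuousLinearMap.inl ℂ Y Z)).add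
    (h'.comp_left (ContinuousLinearMap.inr ℂ Y Z))
  refine EqK.trans (EqK.of_eq ?_) (h1.trans (EqK.of_eq ?_))
  · refine ContinuousLinearMap.ext fun x => ?_
    change (S x, S' x) = (S x, (0 : Z)) + ((0 : Y), S' x)
    simp
  · refine ContinuousLinearMap.ext fun x => ?_
    change (T x, (0 : Z)) + ((0 : Y), T' x) = (T x, T' x)
    simp

/-- index of an operator transported to a complemented subspace -/
lemma index_compl (hIX : IXStmt) [CompleteSpace X] (hX : AP X) (T J R : X →L[ℂ] X)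
    (hT : EssInv T) (hRJ : R ∘L J = ContinuousLinearMap.id ℂ X) :
    EssInv (J ∘L T ∘L R + (ContinuousLinearMap.id ℂ X - J ∘L R)) ∧
      findex (J ∘L T ∘L R + (ContinuousLinearMap.id ℂ X - J ∘L R)) = findex T := by
  have hRJ' : ∀ x, R (J x) = x := fun x => congrArg (fun f : X →L[ℂ] X => f x) hRJ
  let I := ContinuousLinearMap.id ℂ X
  let U₀ : (X × X) →L[ℂ] (X × X) :=
    (J ∘L ContinuousLinearMap.fst ℂ X X + (I - J ∘L R) ∘L ContinuousLinearMap.snd ℂ X X).prod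
      (R ∘L ContinuousLinearMap.snd ℂ X X)
  let U₁ : (X × X) →L[ℂ] (X × X) :=
    (R ∘L ContinuousLinearMap.fst ℂ X X).prod
      ((I - J ∘L R) ∘L ContinuousLinearMap.fst ℂ X X + J ∘L ContinuousLinearMap.snd ℂ X X)
  have hU0 : ∀ x y, U₀ (x, y) = (J x + (y - J (R y)), R y) := fun x y => rfl
  have hU1 : ∀ x y, U₁ (x, y) = (R x, (x - J (R x)) + J y) := fun x y => rfl
  let U : (X × X) ≃L[ℂ] (X × X) := ContinuousLinearEquiv.equivOfInverse U₀ U₁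
    (fun z => by
      obtain ⟨x, y⟩ := z
      rw [hU0, hU1]
      simp only [map_add, map_sub, hRJ']
      refine Prod.ext ?_ ?_
      · simp
      · simp)
    (fun z => by
      obtain ⟨x, y⟩ := z
      rw [hU1, hU0]
      simp only [map_add, map_sub, hRJ']
      refine Prod.ext ?_ ?_
      · simp
      · simp)
  have hkey : (J ∘L T ∘L R + (I - J ∘L R)).prodMap I =
      (U : (X × X) →L[ℂ] (X × X)) ∘L (T.prodMap I) ∘L (U.symm : (X × X) →L[ℂ] (X × X)) := by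
    refine ContinuousLinearMap.ext fun z => ?_
    obtain ⟨x, y⟩ := z
    change (J (T (R x)) + (x - J (R x)), y) = U₀ (T (U₁ (x, y)).1, (U₁ (x, y)).2)
    rw [hU1, hU0]
    simp only [map_add, map_sub, hRJ']
    refine Prod.ext ?_ ?_
    · simp
    · simp
  have h1 : EssInv ((J ∘L T ∘L R + (I - J ∘L R)).prodMap I) := by
    rw [hkey]
    exact (EssInv.of_equiv U).comp ((hT.prodMap essInv_id).comp (EssInv.of_equiv U.symm))
  have h2 : EssInv (J ∘L T ∘L R + (I - J ∘L R)) := essInv_of_prodMap_left h1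
  refine ⟨h2, ?_⟩
  have h3 := hIX.2.2.1 X X X X hX hX hX hX _ I h2 essInv_id
  have h4 := hIX.2.2.1 X X X X hX hX hX hX _ I hT essInv_id
  have h5 := hIX.2.2.2 _ _ _ _ (T.prodMap I) U.symm U
  rw [← hkey] at h5
  rw [h3, h4, findex_id] at h5
  simpa using h5

/-- the two corners of an invertible operator -/
lemma index_corners (hIX : IXStmt) [CompleteSpace X] (hX : AP X) (hXX : AP (X × X))
    (e : X →L[ℂ] X)
    (he : e ∘L e = e) (A : X ≃L[ℂ] X)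
    (hA : EqK (e ∘L (A : X →L[ℂ] X)) ((A : X →L[ℂ] X) ∘L e)) :
    EssInv (e ∘L (A : X →L[ℂ] X) ∘L e + (ContinuousLinearMap.id ℂ X - e)) ∧
    EssInv ((ContinuousLinearMap.id ℂ X - e) ∘L (A : X →L[ℂ] X) ∘L
      (ContinuousLinearMap.id ℂ X - e) + e) ∧
    findex (e ∘L (A : X →L[ℂ] X) ∘L e + (ContinuousLinearMap.id ℂ X - e)) +
    findex ((ContinuousLinearMap.id ℂ X - e) ∘L (A : X →L[ℂ] X) ∘L
      (ContinuousLinearMap.id ℂ X - e) + e) = 0 := by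
  have hee : ∀ x, e (e x) = e x := fun x => congrArg (fun f : X →L[ℂ] X => f x) he
  let I := ContinuousLinearMap.id ℂ X
  let V₀ : (X × X) →L[ℂ] (X × X) :=
    (e ∘L ContinuousLinearMap.fst ℂ X X + (I - e) ∘L ContinuousLinearMap.snd ℂ X X).prod
      ((I - e) ∘L ContinuousLinearMap.fst ℂ X X + e ∘L ContinuousLinearMap.snd ℂ X X)
  have hV0 : ∀ x y, V₀ (x, y) = (e x + (y - e y), (x - e x) + e y) := fun x y => rfl
  have hVV : ∀ z, V₀ (V₀ z) = z := fun z => by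
    obtain ⟨x, y⟩ := z
    rw [hV0, hV0]
    simp only [map_add, map_sub, hee]
    refine Prod.ext ?_ ?_
    · simp
    · simp
  let V : (X × X) ≃L[ℂ] (X × X) := ContinuousLinearEquiv.equivOfInverse V₀ V₀ hVV hVV
  let P₁ : X →L[ℂ] X := e ∘L (A : X →L[ℂ] X) ∘L e + (I - e)
  let P₂ : X →L[ℂ] X := (I - e) ∘L (A : X →L[ℂ] X) ∘L (I - e) + e
  -- the off-diagonal entries are compact
  have hc1 : EqK (e ∘L (A : X →L[ℂ] X) ∘L (I - e)) 0 := by
    have h1 := hA.comp_right (I - e)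
    refine EqK.trans h1 (EqK.of_eq ?_)
    refine ContinuousLinearMap.ext fun x => ?_
    change A (e (x - e x)) = 0
    rw [map_sub, hee, sub_self, map_zero]
  have hc2 : EqK ((I - e) ∘L (A : X →L[ℂ] X) ∘L e) 0 := by
    have h1 := hA.symm.comp_left (I - e)
    refine EqK.trans h1 (EqK.of_eq ?_)
    refine ContinuousLinearMap.ext fun x => ?_
    change e (A x) - e (e (A x)) = 0
    rw [hee, sub_self]
  have hkey : EqK ((V : (X × X) →L[ℂ] (X × X)) ∘L ((A : X →L[ℂ] X).prodMap I) ∘L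
      (V.symm : (X × X) →L[ℂ] (X × X))) (P₁.prodMap P₂) := by
    have h1 : (V : (X × X) →L[ℂ] (X × X)) ∘L ((A : X →L[ℂ] X).prodMap I) ∘L
        (V.symm : (X × X) →L[ℂ] (X × X)) = P₁.prodMap P₂ +
        ((e ∘L (A : X →L[ℂ] X) ∘L (I - e)) ∘L ContinuousLinearMap.snd ℂ X X).prod
          (((I - e) ∘L (A : X →L[ℂ] X) ∘L e) ∘L ContinuousLinearMap.fst ℂ X X) := by
      refine ContinuousLinearMap.ext fun z => ?_
      obtain ⟨x, y⟩ := z
      change V₀ (A (V₀ (x, y)).1, (V₀ (x, y)).2) =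
        (e (A (e x)) + (x - e x), ((A (y - e y)) - e (A (y - e y))) + e y) +
          (e (A (y - e y)), A (e x) - e (A (e x)))
      rw [hV0, hV0]
      simp only [map_add, map_sub, hee]
      refine Prod.ext ?_ ?_
      · simp only [Prod.fst_add]
        abel
      · simp only [Prod.snd_add]
        abel
    rw [h1]
    have h2 := (EqK.refl (P₁.prodMap P₂)).add (EqK.prod'
      (hc1.comp_right (ContinuousLinearMap.snd ℂ X X))
      (hc2.comp_right (ContinuousLinearMap.fst ℂ X X)))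
    refine EqK.trans h2 (EqK.of_eq ?_)
    refine ContinuousLinearMap.ext fun z => ?_
    change P₁.prodMap P₂ z + ((0 : X), (0 : X)) = P₁.prodMap P₂ z
    rw [Prod.mk_zero_zero, add_zero]
  have hAI : EssInv ((A : X →L[ℂ] X).prodMap I) := (EssInv.of_equiv A).prodMap essInv_id
  have h1 : EssInv ((V : (X × X) →L[ℂ] (X × X)) ∘L ((A : X →L[ℂ] X).prodMap I) ∘L
      (V.symm : (X × X) →L[ℂ] (X × X))) :=
    (EssInv.of_equiv V).comp (hAI.comp (EssInv.of_equiv V.symm))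
  have h2 : EssInv (P₁.prodMap P₂) := h1.congr hkey
  have hP1 : EssInv P₁ := essInv_of_prodMap_left h2
  have hP2 : EssInv P₂ := essInv_of_prodMap_right h2
  refine ⟨hP1, hP2, ?_⟩
  have h3 := (hIX.2.1 _ _ hXX hXX _ _ h1 hkey).2
  have h4 := hIX.2.2.2 _ _ _ _ ((A : X →L[ℂ] X).prodMap I) V.symm V
  have h5 := hIX.2.2.1 X X X X hX hX hX hX P₁ P₂ hP1 hP2
  have h6 : findex ((A : X →L[ℂ] X).prodMap I) = 0 :=
    findex_equiv (A.prodCongr (ContinuousLinearEquiv.refl ℂ X))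
  rw [← h5, ← h3, h4, h6]

end Index

section Main

variable {M : Set ℂ} [CompactSpace M]
variable {X : Type} [NormedAddCommGroup X] [NormedSpace ℂ X]

/-- `ρ(z) - μ` is invertible -/
def zEquiv (ρ : Rep M X) {μ : ℂ} (hμ : μ ∉ M) : X ≃L[ℂ] X := by
  have hne : ∀ z : M, (z : ℂ) - μ ≠ 0 := by
    intro z hz
    apply hμ
    rw [← sub_eq_zero.1 hz]
    exact z.2
  let g : C(M, ℂ) := ⟨fun z => ((z : ℂ) - μ)⁻¹,
    (continuous_subtype_val.sub continuous_const).inv₀ hne⟩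
  have hg : g * (zfun M - μ • 1) = 1 := by
    ext z
    change ((z : ℂ) - μ)⁻¹ * ((z : ℂ) - μ * 1) = 1
    rw [mul_one, inv_mul_cancel₀ (hne z)]
  have hg' : (zfun M - μ • 1) * g = 1 := by rw [mul_comm, hg]
  exact ContinuousLinearEquiv.equivOfInverse (ρ.hom (zfun M - μ • 1)) (ρ.hom g)
    (fun x => by
      change (ρ.hom g * ρ.hom (zfun M - μ • 1)) x = x
      rw [← map_mul, hg, map_one]
      rfl)
    (fun x => by
      change (ρ.hom (zfun M - μ • 1) * ρ.hom g) x = x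
      rw [← map_mul, hg', map_one]
      rfl)

lemma zEquiv_coe (ρ : Rep M X) {μ : ℂ} (hμ : μ ∉ M) :
    (zEquiv ρ hμ : X →L[ℂ] X) = ρ.hom (zfun M) - μ • ContinuousLinearMap.id ℂ X := by
  change ρ.hom (zfun M - μ • 1) = _
  rw [map_sub, map_smul, map_one]
  rfl

/-- the two corner operators -/
lemma corner_ops (hIX : IXStmt) [CompleteSpace X] (hX : AP X) (hXX : AP (X × X))
    (φ : C(M, ℂ) →ₐ[ℂ] Calkin X) (ρ : Rep M X) (J R : X →L[ℂ] X)
    (hRJ : R ∘L J = ContinuousLinearMap.id ℂ X)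
    (h : ∀ a T, calkinMk X T = φ a → EqK (J ∘L T) (ρ.hom a ∘L J) ∧
        EqK (R ∘L ρ.hom a) (T ∘L R)) {μ : ℂ} (hμ : μ ∉ M) (T : X →L[ℂ] X)
    (hT : calkinMk X T = φ (zfun M) - μ • 1) :
    EssInv (cornerOp ρ (J ∘L R) μ) ∧ findex (cornerOp ρ (J ∘L R) μ) = findex T ∧
    EssInv (cornerOp ρ (ContinuousLinearMap.id ℂ X - J ∘L R) μ) ∧
      findex (cornerOp ρ (ContinuousLinearMap.id ℂ X - J ∘L R) μ) = - findex T := by
  have hRJ' : ∀ x, R (J x) = x := fun x => congrArg (fun f : X →L[ℂ] X => f x) hRJ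
  let I := ContinuousLinearMap.id ℂ X
  let e : X →L[ℂ] X := J ∘L R
  have he : e ∘L e = e := by
    refine ContinuousLinearMap.ext fun x => ?_
    change J (R (J (R x))) = J (R x)
    rw [hRJ']
  -- the lift of `φ(z - μ)`
  have hT' : calkinMk X T = φ (zfun M - μ • 1) := by rw [hT, map_sub, map_smul, map_one]
  obtain ⟨k1, k2⟩ := h _ T hT'
  have hz : ρ.hom (zfun M - μ • 1) = (zEquiv ρ hμ : X →L[ℂ] X) := rfl
  rw [hz] at k1 k2
  have hTe := essInv_of_ext φ hμ T hT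
  -- first corner
  obtain ⟨i1, i2⟩ := index_compl hIX hX T J R hTe hRJ
  have hA : EqK (e ∘L (zEquiv ρ hμ : X →L[ℂ] X)) ((zEquiv ρ hμ : X →L[ℂ] X) ∘L e) := by
    have h1 : EqK (J ∘L (R ∘L (zEquiv ρ hμ : X →L[ℂ] X))) (J ∘L (T ∘L R)) := k2.comp_left J
    have h2 : EqK ((J ∘L T) ∘L R) (((zEquiv ρ hμ : X →L[ℂ] X) ∘L J) ∘L R) := k1.comp_right R
    exact h1.trans h2
  obtain ⟨j1, j2, j3⟩ := index_corners hIX hX hXX e he (zEquiv ρ hμ) hA
  have hc1 : cornerOp ρ (J ∘L R) μ = e ∘L (zEquiv ρ hμ : X →L[ℂ] X) ∘L e + (I - e) := by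
    rw [zEquiv_coe]
    rfl
  have hc2 : cornerOp ρ (ContinuousLinearMap.id ℂ X - J ∘L R) μ =
      (I - e) ∘L (zEquiv ρ hμ : X →L[ℂ] X) ∘L (I - e) + e := by
    rw [zEquiv_coe]
    have h1 : I - (I - e) = e := by abel
    change (I - e) ∘L (ρ.hom (zfun M) - μ • ContinuousLinearMap.id ℂ X) ∘L (I - e) +
      (I - (I - e)) = _
    rw [h1]
  have hk : EqK (J ∘L T ∘L R + (I - J ∘L R))
      (e ∘L (zEquiv ρ hμ : X →L[ℂ] X) ∘L e + (I - e)) := by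
    refine EqK.add ?_ (EqK.refl _)
    -- e A e ~ J T R e = J T R
    have h1 : EqK (J ∘L ((R ∘L (zEquiv ρ hμ : X →L[ℂ] X)) ∘L e)) (J ∘L ((T ∘L R) ∘L e)) :=
      (k2.comp_right e).comp_left J
    refine (EqK.trans h1 (EqK.of_eq ?_)).symm
    refine ContinuousLinearMap.ext fun x => ?_
    change J (T (R (J (R x)))) = J (T (R x))
    rw [hRJ']
  have hind := (hIX.2.1 _ _ hX hX _ _ i1 hk).2
  rw [hc1, hc2]
  refine ⟨j1, by rw [← hind, i2], j2, ?_⟩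
  rw [← hind, i2] at j3
  linarith

/-- an essentially invertible operator of given index on `l^p` -/
lemma exists_index (hIX : IXStmt) (hAP : APStmt) (hPel : PelStmt) (p : ℝ≥0∞) [Fact (1 ≤ p)]
    (hp : p ≠ ∞) (n : ℤ) : ∃ V : LP p →L[ℂ] LP p, EssInv V ∧ findex V = n := by
  obtain ⟨-, -, hPel3, -⟩ := hPel p hp
  have hX : AP (LP p) := hAP.1 p hp (fun _ => ℂ)
  obtain ⟨m, k, hmk⟩ : ∃ m k : ℕ, ((m : ℤ) - k) = n := ⟨n.toNat, (-n).toNat, by omega⟩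
  obtain ⟨E₁⟩ := hPel3 (Fin m → ℂ) (pcomp_fin p m)
  obtain ⟨F₁⟩ := hPel3 (Fin k → ℂ) (pcomp_fin p k)
  have hE : AP (Fin m → ℂ) := ap_fd
  have hF : AP (Fin k → ℂ) := ap_fd
  have h0 : EssInv (0 : (Fin m → ℂ) →L[ℂ] (Fin k → ℂ)) := essInv_fd _
  have h1 : EssInv ((0 : (Fin m → ℂ) →L[ℂ] (Fin k → ℂ)).prodMap
      (ContinuousLinearMap.id ℂ (LP p))) := h0.prodMap essInv_id
  refine ⟨(F₁ : ((Fin k → ℂ) × LP p) →L[ℂ] LP p) ∘L
    ((0 : (Fin m → ℂ) →L[ℂ] (Fin k → ℂ)).prodMap (ContinuousLinearMap.id ℂ (LP p))) ∘L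
    (E₁.symm : LP p →L[ℂ] ((Fin m → ℂ) × LP p)), ?_, ?_⟩
  · exact (EssInv.of_equiv F₁).comp (h1.comp (EssInv.of_equiv E₁.symm))
  · rw [hIX.2.2.2, hIX.2.2.1 _ _ _ _ hE hF hX hX _ _ h0 essInv_id, findex_id,
      findex_zero_fd]
    simpa using hmk

lemma cornerOp_conj {Y : Type} [NormedAddCommGroup Y] [NormedSpace ℂ Y] (ρ : Rep M X)
    (e : X →L[ℂ] X) (Φ : X ≃L[ℂ] Y) (μ : ℂ) :
    cornerOp (ρ.conj Φ) ((Φ : X →L[ℂ] Y) ∘L e ∘L (Φ.symm : Y →L[ℂ] X)) μ =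
      (Φ : X →L[ℂ] Y) ∘L (cornerOp ρ e μ) ∘L (Φ.symm : Y →L[ℂ] X) := by
  refine ContinuousLinearMap.ext fun y => ?_
  obtain ⟨x, rfl⟩ := Φ.surjective y
  change Φ (e (Φ.symm ((ρ.conj Φ).hom (zfun M) (Φ (e (Φ.symm (Φ x)))) -
    μ • (Φ (e (Φ.symm (Φ x))))))) + (Φ x - Φ (e (Φ.symm (Φ x)))) =
    Φ (e (ρ.hom (zfun M) (e (Φ.symm (Φ x))) - μ • (e (Φ.symm (Φ x)))) +
      (Φ.symm (Φ x) - e (Φ.symm (Φ x))))
  rw [Φ.symm_apply_apply, Rep.conj_apply, ← map_smul, ← map_sub, Φ.symm_apply_apply,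
    ← map_sub, ← map_add]

lemma cornerOp_prod {Y : Type} [NormedAddCommGroup Y] [NormedSpace ℂ Y] (ρ : Rep M X)
    (σ : Rep M Y) (e : X →L[ℂ] X) (f : Y →L[ℂ] Y) (μ : ℂ) :
    cornerOp (ρ.prod σ) (e.prodMap f) μ = (cornerOp ρ e μ).prodMap (cornerOp σ f μ) :=
  ContinuousLinearMap.ext fun _ => rfl

lemma corner_conj {Y : Type} [NormedAddCommGroup Y] [NormedSpace ℂ Y] {ρ : Rep M X}
    {e : X →L[ℂ] X} (h : Corner ρ e) (Φ : X ≃L[ℂ] Y) :
    Corner (ρ.conj Φ) ((Φ : X →L[ℂ] Y) ∘L e ∘L (Φ.symm : Y →L[ℂ] X)) := by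
  have hee : ∀ x, e (e x) = e x := fun x => congrArg (fun T : X →L[ℂ] X => T x) h.1
  refine ⟨?_, fun a => ?_⟩
  · refine ContinuousLinearMap.ext fun y => ?_
    change Φ (e (Φ.symm (Φ (e (Φ.symm y))))) = Φ (e (Φ.symm y))
    rw [Φ.symm_apply_apply, hee]
  · have h1 := ((h.2 a).comp_right (Φ.symm : Y →L[ℂ] X)).comp_left (Φ : X →L[ℂ] Y)
    refine EqK.trans (EqK.of_eq ?_) (h1.trans (EqK.of_eq ?_))
    · refine ContinuousLinearMap.ext fun y => ?_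
      change Φ (e (Φ.symm (Φ (ρ.hom a (Φ.symm y))))) = Φ (e (ρ.hom a (Φ.symm y)))
      rw [Φ.symm_apply_apply]
    · refine ContinuousLinearMap.ext fun y => ?_
      change Φ (ρ.hom a (e (Φ.symm y))) = Φ (ρ.hom a (Φ.symm (Φ (e (Φ.symm y)))))
      rw [Φ.symm_apply_apply]

/-- The core theorem applied to the difference of the two extensions. -/
lemma core (hIX : IXStmt) (hAP : APStmt) (hPel : PelStmt) (p : ℝ≥0∞) [Fact (1 ≤ p)]
    (hp : p ≠ ∞) (hMC : MCStmt p) (hM : M.Nonempty)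
    (φ₁ φ₂ : C(M, ℂ) →ₐ[ℂ] Calkin (LP p))
    (hind : ∀ μ : ℂ, μ ∉ M → ∀ T₁ T₂ : LP p →L[ℂ] LP p,
        calkinMk (LP p) T₁ = φ₁ (zfun M) - μ • 1 →
        calkinMk (LP p) T₂ = φ₂ (zfun M) - μ • 1 → findex T₁ = findex T₂)
    (ρ₁ ρ₂ : Rep M (LP p)) (J₁ R₁ J₂ R₂ : LP p →L[ℂ] LP p)
    (hRJ₁ : R₁ ∘L J₁ = ContinuousLinearMap.id ℂ (LP p))
    (hRJ₂ : R₂ ∘L J₂ = ContinuousLinearMap.id ℂ (LP p))
    (h₁ : ∀ a T, calkinMk (LP p) T = φ₁ a → EqK (J₁ ∘L T) (ρ₁.hom a ∘L J₁) ∧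
        EqK (R₁ ∘L ρ₁.hom a) (T ∘L R₁))
    (h₂ : ∀ a T, calkinMk (LP p) T = φ₂ a → EqK (J₂ ∘L T) (ρ₂.hom a ∘L J₂) ∧
        EqK (R₂ ∘L ρ₂.hom a) (T ∘L R₂)) :
    ∃ (σ₁ σ₂ : Rep M (LP p)),
      EssEquiv ((ρ₁.prod ρ₂).prod σ₁)
        (((J₁ ∘L R₁).prodMap (ContinuousLinearMap.id ℂ (LP p) - J₂ ∘L R₂)).prodMap
          (ContinuousLinearMap.id ℂ (LP p)))
        σ₂ (ContinuousLinearMap.id ℂ (LP p)) := by
  obtain ⟨-, ⟨S⟩, -, -⟩ := hPel p hp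
  have hX : AP (LP p) := hAP.1 p hp (fun _ => ℂ)
  have hXX : AP (LP p × LP p) := hAP.2.2 _ _ hX hX
  have hRJ₁' : ∀ x, R₁ (J₁ x) = x := fun x =>
    congrArg (fun f : LP p →L[ℂ] LP p => f x) hRJ₁
  have hRJ₂' : ∀ x, R₂ (J₂ x) = x := fun x =>
    congrArg (fun f : LP p →L[ℂ] LP p => f x) hRJ₂
  let I := ContinuousLinearMap.id ℂ (LP p)
  let e : (LP p × LP p) →L[ℂ] (LP p × LP p) := (J₁ ∘L R₁).prodMap (I - J₂ ∘L R₂)
  have hc1 : Corner ρ₁ (J₁ ∘L R₁) := by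
    refine ⟨?_, fun a => ?_⟩
    · refine ContinuousLinearMap.ext fun x => ?_
      change J₁ (R₁ (J₁ (R₁ x))) = J₁ (R₁ x)
      rw [hRJ₁']
    · obtain ⟨T, hT⟩ := calkinMk_surjective (φ₁ a)
      obtain ⟨k1, k2⟩ := h₁ a T hT
      have e1 : EqK (J₁ ∘L (R₁ ∘L ρ₁.hom a)) (J₁ ∘L (T ∘L R₁)) := k2.comp_left J₁
      have e2 : EqK ((J₁ ∘L T) ∘L R₁) ((ρ₁.hom a ∘L J₁) ∘L R₁) := k1.comp_right R₁
      exact e1.trans e2
  have hc2 : Corner ρ₂ (I - J₂ ∘L R₂) := by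
    refine ⟨?_, fun a => ?_⟩
    · refine ContinuousLinearMap.ext fun x => ?_
      change (x - J₂ (R₂ x)) - J₂ (R₂ (x - J₂ (R₂ x))) = x - J₂ (R₂ x)
      rw [map_sub, hRJ₂', sub_self, map_zero, sub_zero]
    · obtain ⟨T, hT⟩ := calkinMk_surjective (φ₂ a)
      obtain ⟨k1, k2⟩ := h₂ a T hT
      have e1 : EqK (J₂ ∘L (R₂ ∘L ρ₂.hom a)) (J₂ ∘L (T ∘L R₂)) := k2.comp_left J₂
      have e2 : EqK ((J₂ ∘L T) ∘L R₂) ((ρ₂.hom a ∘L J₂) ∘L R₂) := k1.comp_right R₂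
      have e3 := (EqK.refl (ρ₂.hom a)).sub (e1.trans e2)
      refine EqK.trans (EqK.of_eq ?_) (e3.trans (EqK.of_eq ?_))
      · exact ContinuousLinearMap.ext fun x => rfl
      · refine ContinuousLinearMap.ext fun x => ?_
        change ρ₂.hom a x - ρ₂.hom a (J₂ (R₂ x)) = ρ₂.hom a (x - J₂ (R₂ x))
        rw [map_sub (ρ₂.hom a)]
  have hc : Corner (ρ₁.prod ρ₂) e := hc1.prod hc2
  have hcS := corner_conj hc S
  have hind' : ∀ μ : ℂ, μ ∉ M → IndexZero (cornerOp ((ρ₁.prod ρ₂).conj S)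
      ((S : (LP p × LP p) →L[ℂ] LP p) ∘L e ∘L (S.symm : LP p →L[ℂ] (LP p × LP p))) μ) := by
    intro μ hμ
    obtain ⟨T₁, hT₁⟩ := calkinMk_surjective (φ₁ (zfun M) - μ • 1)
    obtain ⟨T₂, hT₂⟩ := calkinMk_surjective (φ₂ (zfun M) - μ • 1)
    obtain ⟨a1, a2, -, -⟩ := corner_ops hIX hX hXX φ₁ ρ₁ J₁ R₁ hRJ₁ h₁ hμ T₁ hT₁
    obtain ⟨-, -, b1, b2⟩ := corner_ops hIX hX hXX φ₂ ρ₂ J₂ R₂ hRJ₂ h₂ hμ T₂ hT₂
    rw [cornerOp_conj]
    refine IndexZero.conj ?_ S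
    rw [cornerOp_prod]
    have h3 := hIX.2.2.1 _ _ _ _ hX hX hX hX _ _ a1 b1
    rw [a2, b2, hind μ hμ T₁ T₂ hT₁ hT₂, add_neg_cancel] at h3
    obtain ⟨U, hU⟩ := hIX.1 _ _ hXX hXX _ (a1.prodMap b1) h3
    exact ⟨unitOf U, hU⟩
  obtain ⟨σ₁, σ₂, hE⟩ := hMC M hM _ _ hcS hind'
  refine ⟨σ₁, σ₂, EssEquiv.trans ?_ hE⟩
  refine EssEquiv.prod ?_ (EssEquiv.refl (corner_id σ₁))
  exact EssEquiv.of_iso S hc (fun a x => (Rep.conj_apply _ S a x).symm) (fun x => by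
    change S (e (S.symm (S x))) = S (e x)
    rw [S.symm_apply_apply])

/-- The intertwiner. -/
lemma exists_intertwiner₂ (φ₁ φ₂ : C(M, ℂ) →ₐ[ℂ] Calkin X)
    (ρ₁ ρ₂ : Rep M X) (J₁ R₁ J₂ R₂ : X →L[ℂ] X)
    (hRJ₁ : R₁ ∘L J₁ = ContinuousLinearMap.id ℂ X)
    (hRJ₂ : R₂ ∘L J₂ = ContinuousLinearMap.id ℂ X)
    (h₁ : ∀ a T, calkinMk X T = φ₁ a → EqK (J₁ ∘L T) (ρ₁.hom a ∘L J₁) ∧
        EqK (R₁ ∘L ρ₁.hom a) (T ∘L R₁))
    (h₂ : ∀ a T, calkinMk X T = φ₂ a → EqK (J₂ ∘L T) (ρ₂.hom a ∘L J₂) ∧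
        EqK (R₂ ∘L ρ₂.hom a) (T ∘L R₂))
    (σ₁ σ₂ : Rep M X)
    (hE : EssEquiv ((ρ₁.prod ρ₂).prod σ₁)
        (((J₁ ∘L R₁).prodMap (ContinuousLinearMap.id ℂ X - J₂ ∘L R₂)).prodMap
          (ContinuousLinearMap.id ℂ X))
        σ₂ (ContinuousLinearMap.id ℂ X)) :
    ∃ W : (X × (X × X)) →L[ℂ] (X × X), EssInv W ∧ ∀ a T₁ T₂, calkinMk X T₁ = φ₁ a →
      calkinMk X T₂ = φ₂ a → EqK (W ∘L (T₁.prodMap ((ρ₂.hom a).prodMap (σ₁.hom a))))
        ((T₂.prodMap (σ₂.hom a)) ∘L W) := by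
  obtain ⟨A, B, hBA, hAB, hA, -, hint⟩ := hE
  have hRJ₁' : ∀ x, R₁ (J₁ x) = x := fun x => congrArg (fun f : X →L[ℂ] X => f x) hRJ₁
  have hRJ₂' : ∀ x, R₂ (J₂ x) = x := fun x => congrArg (fun f : X →L[ℂ] X => f x) hRJ₂
  let I := ContinuousLinearMap.id ℂ X
  let N₁ : (X × (X × X)) →L[ℂ] ((X × X) × X) :=
    ((J₁ ∘L ContinuousLinearMap.fst ℂ X (X × X)).prod
      ((I - J₂ ∘L R₂) ∘L ContinuousLinearMap.fst ℂ X X ∘L
        ContinuousLinearMap.snd ℂ X (X × X))).prod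
      (ContinuousLinearMap.snd ℂ X X ∘L ContinuousLinearMap.snd ℂ X (X × X))
  let N₂ : (X × (X × X)) →L[ℂ] X := R₂ ∘L ContinuousLinearMap.fst ℂ X X ∘L
        ContinuousLinearMap.snd ℂ X (X × X)
  have hN1 : ∀ x y u, N₁ (x, (y, u)) = ((J₁ x, y - J₂ (R₂ y)), u) := fun x y u => rfl
  have hN2 : ∀ x y u, N₂ (x, (y, u)) = R₂ y := fun x y u => rfl
  let G : (X × ((X × X) × X)) →L[ℂ] (X × (X × X)) :=
    (R₁ ∘L ContinuousLinearMap.fst ℂ X X ∘L ContinuousLinearMap.fst ℂ (X × X) X ∘L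
      ContinuousLinearMap.snd ℂ X ((X × X) × X)).prod
    (((I - J₂ ∘L R₂) ∘L ContinuousLinearMap.snd ℂ X X ∘L ContinuousLinearMap.fst ℂ (X × X) X ∘L
      ContinuousLinearMap.snd ℂ X ((X × X) × X) +
        J₂ ∘L ContinuousLinearMap.fst ℂ X ((X × X) × X)).prod
      (ContinuousLinearMap.snd ℂ (X × X) X ∘L ContinuousLinearMap.snd ℂ X ((X × X) × X)))
  have hG : ∀ t b c u, G (t, ((b, c), u)) = (R₁ b, ((c - J₂ (R₂ c)) + J₂ t, u)) :=
    fun t b c u => rfl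
  let E : ((X × X) × X) →L[ℂ] ((X × X) × X) :=
    ((J₁ ∘L R₁).prodMap (I - J₂ ∘L R₂)).prodMap I
  have hEE : ∀ b c u, E ((b, c), u) = ((J₁ (R₁ b), c - J₂ (R₂ c)), u) := fun b c u => rfl
  let W : (X × (X × X)) →L[ℂ] (X × X) := N₂.prod (A ∘L N₁)
  let W' : (X × X) →L[ℂ] (X × (X × X)) := G ∘L (I.prodMap B)
  refine ⟨W, ⟨W', ?_, ?_⟩, fun a T₁ T₂ hT₁ hT₂ => ?_⟩
  · -- W' W
    have h3 : EqK (G ∘L (N₂.prod ((B ∘L A) ∘L N₁))) (G ∘L (N₂.prod (E ∘L N₁))) :=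
      (EqK.prod' (EqK.refl N₂) (hBA.comp_right N₁)).comp_left G
    refine EqK.trans (EqK.of_eq ?_) (h3.trans (EqK.of_eq ?_))
    · exact ContinuousLinearMap.ext fun z => rfl
    · refine ContinuousLinearMap.ext fun z => ?_
      obtain ⟨x, y, u⟩ := z
      change G (N₂ (x, (y, u)), E (N₁ (x, (y, u)))) = (x, (y, u))
      rw [hN1, hN2, hEE, hG]
      simp only [map_sub, hRJ₁', hRJ₂', sub_self, map_zero, sub_zero, sub_add_cancel]
  · -- W W'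
    have h3 : EqK ((ContinuousLinearMap.fst ℂ X X).prod ((A ∘L E) ∘L B ∘L
        ContinuousLinearMap.snd ℂ X X)) ((ContinuousLinearMap.fst ℂ X X).prod (A ∘L B ∘L
        ContinuousLinearMap.snd ℂ X X)) :=
      EqK.prod' (EqK.refl _) (hA.comp_right (B ∘L ContinuousLinearMap.snd ℂ X X))
    have h4 : EqK ((ContinuousLinearMap.fst ℂ X X).prod ((A ∘L B) ∘L
        ContinuousLinearMap.snd ℂ X X)) ((ContinuousLinearMap.fst ℂ X X).prod (I ∘L
        ContinuousLinearMap.snd ℂ X X)) :=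
      EqK.prod' (EqK.refl _) (hAB.comp_right (ContinuousLinearMap.snd ℂ X X))
    refine EqK.trans (EqK.of_eq ?_) (h3.trans (h4.trans (EqK.of_eq ?_)))
    · refine ContinuousLinearMap.ext fun z => ?_
      obtain ⟨t, s⟩ := z
      obtain ⟨⟨b, c⟩, u⟩ : ∃ q : (X × X) × X, True := ⟨B s, trivial⟩
      change (N₂ (G (t, B s)), A (N₁ (G (t, B s)))) = (t, A (E (B s)))
      generalize B s = q
      obtain ⟨⟨b, c⟩, u⟩ := q
      rw [hG, hN1, hN2, hEE]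
      simp only [map_sub, map_add, hRJ₂', sub_self, zero_add, add_sub_cancel_right]
    · exact ContinuousLinearMap.ext fun z => rfl
  · obtain ⟨k1, -⟩ := h₁ a T₁ hT₁
    obtain ⟨-, k2⟩ := h₂ a T₂ hT₂
    have hcm : EqK ((I - J₂ ∘L R₂) ∘L ρ₂.hom a) (ρ₂.hom a ∘L (I - J₂ ∘L R₂)) := by
      obtain ⟨k3, k4⟩ := h₂ a T₂ hT₂
      have e1 : EqK (J₂ ∘L (R₂ ∘L ρ₂.hom a)) (J₂ ∘L (T₂ ∘L R₂)) := k4.comp_left J₂
      have e2 : EqK ((J₂ ∘L T₂) ∘L R₂) ((ρ₂.hom a ∘L J₂) ∘L R₂) := k3.comp_right R₂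
      have e3 := (EqK.refl (ρ₂.hom a)).sub (e1.trans e2)
      refine EqK.trans (EqK.of_eq ?_) (e3.trans (EqK.of_eq ?_))
      · exact ContinuousLinearMap.ext fun x => rfl
      · refine ContinuousLinearMap.ext fun x => ?_
        change ρ₂.hom a x - ρ₂.hom a (J₂ (R₂ x)) = ρ₂.hom a (x - J₂ (R₂ x))
        rw [map_sub (ρ₂.hom a)]
    -- the first component
    have f1 : EqK (N₂ ∘L (T₁.prodMap ((ρ₂.hom a).prodMap (σ₁.hom a)))) (T₂ ∘L N₂) :=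
      k2.comp_right (ContinuousLinearMap.fst ℂ X X ∘L ContinuousLinearMap.snd ℂ X (X × X))
    -- the second component
    have f2 : EqK (N₁ ∘L (T₁.prodMap ((ρ₂.hom a).prodMap (σ₁.hom a))))
        (((ρ₁.prod ρ₂).prod σ₁).hom a ∘L N₁) := by
      have g1 := EqK.prod' (EqK.prod' (k1.comp_right (ContinuousLinearMap.fst ℂ X (X × X)))
        (hcm.comp_right (ContinuousLinearMap.fst ℂ X X ∘L ContinuousLinearMap.snd ℂ X (X × X))))
        (EqK.refl (σ₁.hom a ∘L ContinuousLinearMap.snd ℂ X X ∘L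
          ContinuousLinearMap.snd ℂ X (X × X)))
      refine EqK.trans (EqK.of_eq ?_) (g1.trans (EqK.of_eq ?_))
      · exact ContinuousLinearMap.ext fun z => rfl
      · exact ContinuousLinearMap.ext fun z => rfl
    have f3 : EqK (A ∘L (N₁ ∘L (T₁.prodMap ((ρ₂.hom a).prodMap (σ₁.hom a)))))
        (A ∘L (((ρ₁.prod ρ₂).prod σ₁).hom a ∘L N₁)) := f2.comp_left A
    have f4 : EqK ((A ∘L ((ρ₁.prod ρ₂).prod σ₁).hom a) ∘L N₁) ((σ₂.hom a ∘L A) ∘L N₁) :=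
      (hint a).comp_right N₁
    have f5 := EqK.prod' f1 (f3.trans f4)
    refine EqK.trans (EqK.of_eq ?_) (f5.trans (EqK.of_eq ?_))
    · exact ContinuousLinearMap.ext fun z => rfl
    · exact ContinuousLinearMap.ext fun z => rfl

/-- first regrouping -/
def regr₁ (E : (X × X) ≃L[ℂ] X) : (X × ((X × X) × X)) ≃L[ℂ] ((X × X) × ((X × X) × X)) :=
  ContinuousLinearEquiv.equivOfInverse
    (((ContinuousLinearMap.fst ℂ X ((X × X) × X)).prod
      (ContinuousLinearMap.fst ℂ X X ∘L (E.symm : X →L[ℂ] (X × X)) ∘L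
        ContinuousLinearMap.fst ℂ X X ∘L ContinuousLinearMap.fst ℂ (X × X) X ∘L
          ContinuousLinearMap.snd ℂ X ((X × X) × X))).prod
    (((ContinuousLinearMap.snd ℂ X X ∘L (E.symm : X →L[ℂ] (X × X)) ∘L
        ContinuousLinearMap.fst ℂ X X ∘L ContinuousLinearMap.fst ℂ (X × X) X ∘L
          ContinuousLinearMap.snd ℂ X ((X × X) × X)).prod
      (ContinuousLinearMap.snd ℂ X X ∘L ContinuousLinearMap.fst ℂ (X × X) X ∘L
          ContinuousLinearMap.snd ℂ X ((X × X) × X))).prod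
      (ContinuousLinearMap.snd ℂ (X × X) X ∘L ContinuousLinearMap.snd ℂ X ((X × X) × X))))
    ((ContinuousLinearMap.fst ℂ X X ∘L ContinuousLinearMap.fst ℂ (X × X) ((X × X) × X)).prod
      ((((E : (X × X) →L[ℂ] X) ∘L
        (ContinuousLinearMap.snd ℂ X X ∘L ContinuousLinearMap.fst ℂ (X × X) ((X × X) × X)).prod
        (ContinuousLinearMap.fst ℂ X X ∘L ContinuousLinearMap.fst ℂ (X × X) X ∘L
          ContinuousLinearMap.snd ℂ (X × X) ((X × X) × X))).prod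
        (ContinuousLinearMap.snd ℂ X X ∘L ContinuousLinearMap.fst ℂ (X × X) X ∘L
          ContinuousLinearMap.snd ℂ (X × X) ((X × X) × X))).prod
        (ContinuousLinearMap.snd ℂ (X × X) X ∘L
          ContinuousLinearMap.snd ℂ (X × X) ((X × X) × X))))
    (fun q => by
      obtain ⟨x, ⟨y, z⟩, w⟩ := q
      change (x, ((E ((E.symm y).1, (E.symm y).2), z), w)) = (x, ((y, z), w))
      rw [Prod.mk.eta, E.apply_symm_apply])
    (fun q => by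
      obtain ⟨⟨x, y₁⟩, ⟨y₂, z⟩, w⟩ := q
      change ((x, (E.symm (E (y₁, y₂))).1), (((E.symm (E (y₁, y₂))).2, z), w)) =
        ((x, y₁), ((y₂, z), w))
      rw [E.symm_apply_apply])

lemma regr₁_apply (E : (X × X) ≃L[ℂ] X) (x y z w : X) :
    regr₁ E (x, ((y, z), w)) = ((x, (E.symm y).1), (((E.symm y).2, z), w)) := rfl

/-- second regrouping -/
def regr₂ (E : (X × X) ≃L[ℂ] X) : ((X × X) × ((X × X) × X)) ≃L[ℂ] (X × ((X × X) × X)) :=
  ContinuousLinearEquiv.equivOfInverse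
    ((ContinuousLinearMap.fst ℂ X X ∘L ContinuousLinearMap.fst ℂ (X × X) ((X × X) × X)).prod
      (((ContinuousLinearMap.fst ℂ X X ∘L ContinuousLinearMap.fst ℂ (X × X) X ∘L
          ContinuousLinearMap.snd ℂ (X × X) ((X × X) × X)).prod
        ((E : (X × X) →L[ℂ] X) ∘L
        (ContinuousLinearMap.snd ℂ X X ∘L ContinuousLinearMap.fst ℂ (X × X) ((X × X) × X)).prod
        (ContinuousLinearMap.snd ℂ X X ∘L ContinuousLinearMap.fst ℂ (X × X) X ∘L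
          ContinuousLinearMap.snd ℂ (X × X) ((X × X) × X)))).prod
        (ContinuousLinearMap.snd ℂ (X × X) X ∘L
          ContinuousLinearMap.snd ℂ (X × X) ((X × X) × X))))
    (((ContinuousLinearMap.fst ℂ X ((X × X) × X)).prod
      (ContinuousLinearMap.fst ℂ X X ∘L (E.symm : X →L[ℂ] (X × X)) ∘L
        ContinuousLinearMap.snd ℂ X X ∘L ContinuousLinearMap.fst ℂ (X × X) X ∘L
          ContinuousLinearMap.snd ℂ X ((X × X) × X))).prod
    (((ContinuousLinearMap.fst ℂ X X ∘L ContinuousLinearMap.fst ℂ (X × X) X ∘L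
          ContinuousLinearMap.snd ℂ X ((X × X) × X)).prod
      (ContinuousLinearMap.snd ℂ X X ∘L (E.symm : X →L[ℂ] (X × X)) ∘L
        ContinuousLinearMap.snd ℂ X X ∘L ContinuousLinearMap.fst ℂ (X × X) X ∘L
          ContinuousLinearMap.snd ℂ X ((X × X) × X))).prod
      (ContinuousLinearMap.snd ℂ (X × X) X ∘L ContinuousLinearMap.snd ℂ X ((X × X) × X))))
    (fun q => by
      obtain ⟨⟨x, z₁⟩, ⟨y, z⟩, w⟩ := q
      change ((x, (E.symm (E (z₁, z))).1), ((y, (E.symm (E (z₁, z))).2), w)) =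
        ((x, z₁), ((y, z), w))
      rw [E.symm_apply_apply])
    (fun q => by
      obtain ⟨x, ⟨y, z⟩, w⟩ := q
      change (x, ((y, E ((E.symm z).1, (E.symm z).2)), w)) = (x, ((y, z), w))
      rw [Prod.mk.eta, E.apply_symm_apply])

lemma regr₂_apply (E : (X × X) ≃L[ℂ] X) (x z₁ y z w : X) :
    regr₂ E ((x, z₁), ((y, z), w)) = (x, ((y, E (z₁, z)), w)) := rfl

/-- the intertwiner on the absorbing space -/
lemma absorb_intertwiner (φ₁ φ₂ : C(M, ℂ) →ₐ[ℂ] Calkin X) (α β α' β' : Rep M X) (v : M)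
    (W₂ : (X × X) →L[ℂ] (X × X))
    (hint : ∀ a T₁ T₂, calkinMk X T₁ = φ₁ a → calkinMk X T₂ = φ₂ a →
      EqK (W₂ ∘L (T₁.prodMap (α.hom a))) ((T₂.prodMap (β.hom a)) ∘L W₂))
    (E₁ E₂ : (X × X) ≃L[ℂ] X)
    (hE₁ : ∀ a x y, E₁ (α.hom a x, α'.hom a y) = α'.hom a (E₁ (x, y)))
    (hE₂ : ∀ a x y, E₂ (β.hom a x, β'.hom a y) = β'.hom a (E₂ (x, y)))
    (V : X →L[ℂ] X) (a : C(M, ℂ)) (T₁ T₂ : X →L[ℂ] X) (hT₁ : calkinMk X T₁ = φ₁ a)
    (hT₂ : calkinMk X T₂ = φ₂ a) :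
    EqK (((regr₂ E₂ : ((X × X) × ((X × X) × X)) →L[ℂ] (X × ((X × X) × X))) ∘L
      (W₂.prodMap ((ContinuousLinearMap.id ℂ (X × X)).prodMap V)) ∘L
      (regr₁ E₁ : (X × ((X × X) × X)) →L[ℂ] ((X × X) × ((X × X) × X)))) ∘L
        (T₁.prodMap (((α'.hom a).prodMap (β'.hom a)).prodMap ((scal v X).hom a))))
      ((T₂.prodMap (((α'.hom a).prodMap (β'.hom a)).prodMap ((scal v X).hom a))) ∘L
      ((regr₂ E₂ : ((X × X) × ((X × X) × X)) →L[ℂ] (X × ((X × X) × X))) ∘L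
      (W₂.prodMap ((ContinuousLinearMap.id ℂ (X × X)).prodMap V)) ∘L
      (regr₁ E₁ : (X × ((X × X) × X)) →L[ℂ] ((X × X) × ((X × X) × X))))) := by
  let Q : ((X × X) × X) →L[ℂ] ((X × X) × X) :=
    ((α'.hom a).prodMap (β'.hom a)).prodMap ((scal v X).hom a)
  have h1 : EqK (((ContinuousLinearMap.id ℂ (X × X)).prodMap V) ∘L Q)
      (Q ∘L ((ContinuousLinearMap.id ℂ (X × X)).prodMap V)) := by
    refine EqK.of_eq ?_
    refine ContinuousLinearMap.ext fun q => ?_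
    change (((α'.hom a).prodMap (β'.hom a)) q.1, V (a v • q.2)) =
      (((α'.hom a).prodMap (β'.hom a)) q.1, a v • V q.2)
    rw [map_smul]
  have h2 := (hint a T₁ T₂ hT₁ hT₂).prodMap h1
  have h3 := (h2.comp_right (regr₁ E₁ : (X × ((X × X) × X)) →L[ℂ]
    ((X × X) × ((X × X) × X)))).comp_left
      (regr₂ E₂ : ((X × X) × ((X × X) × X)) →L[ℂ] (X × ((X × X) × X)))
  have hs : ∀ y, E₁.symm (α'.hom a y) = (α.hom a (E₁.symm y).1, α'.hom a (E₁.symm y).2) := by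
    intro y
    rw [← E₁.injective.eq_iff, E₁.apply_symm_apply, hE₁, Prod.mk.eta, E₁.apply_symm_apply]
  refine EqK.trans (EqK.of_eq ?_) (h3.trans (EqK.of_eq ?_))
  · refine ContinuousLinearMap.ext fun q => ?_
    obtain ⟨x, ⟨y, z⟩, w⟩ := q
    change regr₂ E₂ (W₂ ((regr₁ E₁ (T₁ x, ((α'.hom a y, β'.hom a z), a v • w))).1),
      ((regr₁ E₁ (T₁ x, ((α'.hom a y, β'.hom a z), a v • w))).2.1,
        V (regr₁ E₁ (T₁ x, ((α'.hom a y, β'.hom a z), a v • w))).2.2)) =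
      regr₂ E₂ (W₂ (T₁ x, α.hom a (E₁.symm y).1),
        ((α'.hom a (E₁.symm y).2, β'.hom a z), V (a v • w)))
    rw [regr₁_apply, hs]
  · refine ContinuousLinearMap.ext fun q => ?_
    obtain ⟨x, ⟨y, z⟩, w⟩ := q
    change regr₂ E₂ ((T₂ (W₂ (x, (E₁.symm y).1)).1, β.hom a (W₂ (x, (E₁.symm y).1)).2),
      ((α'.hom a (E₁.symm y).2, β'.hom a z), a v • V w)) =
      (T₂ (W₂ (x, (E₁.symm y).1)).1, ((α'.hom a (E₁.symm y).2,
        β'.hom a (E₂ ((W₂ (x, (E₁.symm y).1)).2, z))), a v • V w))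
    rw [regr₂_apply, hE₂]

end Main

/-- Module MCG. -/
theorem mcg (hIX : IXStmt) (hAP : APStmt) (hPel : PelStmt) : McgAllStmt := by
  intro p _ hp1 hp hMC hSplit M _ hM φ₁ φ₂ hb₁ hb₂ hind
  obtain ⟨ρ₁, J₁, R₁, hRJ₁, h₁⟩ := hSplit M hM φ₁ hb₁
  obtain ⟨ρ₂, J₂, R₂, hRJ₂, h₂⟩ := hSplit M hM φ₂ hb₂
  obtain ⟨σ₁, σ₂, hE⟩ := core hIX hAP hPel p hp hMC hM φ₁ φ₂ hind ρ₁ ρ₂ J₁ R₁ J₂ R₂
    hRJ₁ hRJ₂ h₁ h₂
  obtain ⟨W, hW, hint⟩ := exists_intertwiner₂ φ₁ φ₂ ρ₁ ρ₂ J₁ R₁ J₂ R₂ hRJ₁ hRJ₂ h₁ h₂ σ₁ σ₂ hE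
  obtain ⟨-, ⟨S⟩, -, -⟩ := hPel p hp
  have hX : AP (LP p) := hAP.1 p hp (fun _ => ℂ)
  have hXX : AP (LP p × LP p) := hAP.2.2 _ _ hX hX
  have hXXX : AP ((LP p × LP p) × LP p) := hAP.2.2 _ _ hXX hX
  have hX4 : AP (LP p × ((LP p × LP p) × LP p)) := hAP.2.2 _ _ hX hXXX
  -- the representations
  let α : Rep M (LP p) := (ρ₂.prod σ₁).conj S
  let W₂ : (LP p × LP p) →L[ℂ] (LP p × LP p) :=
    W ∘L (((ContinuousLinearEquiv.refl ℂ (LP p)).prodCongr S.symm :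
      (LP p × LP p) ≃L[ℂ] (LP p × (LP p × LP p))) :
        (LP p × LP p) →L[ℂ] (LP p × (LP p × LP p)))
  have hW₂ : EssInv W₂ := hW.comp (EssInv.of_equiv _)
  have hint₂ : ∀ a T₁ T₂, calkinMk (LP p) T₁ = φ₁ a → calkinMk (LP p) T₂ = φ₂ a →
      EqK (W₂ ∘L (T₁.prodMap (α.hom a))) ((T₂.prodMap (σ₂.hom a)) ∘L W₂) := by
    intro a T₁ T₂ hT₁ hT₂
    have h3 := (hint a T₁ T₂ hT₁ hT₂).comp_right
      (((ContinuousLinearEquiv.refl ℂ (LP p)).prodCongr S.symm :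
      (LP p × LP p) ≃L[ℂ] (LP p × (LP p × LP p))) :
        (LP p × LP p) →L[ℂ] (LP p × (LP p × LP p)))
    refine EqK.trans (EqK.of_eq ?_) (h3.trans (EqK.of_eq ?_))
    · refine ContinuousLinearMap.ext fun q => ?_
      obtain ⟨x, y⟩ := q
      change W (T₁ x, S.symm (S ((ρ₂.prod σ₁).hom a (S.symm y)))) =
        W (T₁ x, (ρ₂.prod σ₁).hom a (S.symm y))
      rw [S.symm_apply_apply]
    · exact ContinuousLinearMap.ext fun q => rfl
  obtain ⟨α', E₁, hE₁⟩ := exists_absorb hPel hp α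
  obtain ⟨β', E₂, hE₂⟩ := exists_absorb hPel hp σ₂
  obtain ⟨V, hV, hVi⟩ := exists_index hIX hAP hPel p hp (-findex W₂)
  obtain ⟨v₀, hv₀⟩ := hM
  have hint₃ := absorb_intertwiner φ₁ φ₂ α σ₂ α' β' ⟨v₀, hv₀⟩ W₂ hint₂ E₁ E₂ hE₁ hE₂ V
  let D : ((LP p × LP p) × ((LP p × LP p) × LP p)) →L[ℂ]
      ((LP p × LP p) × ((LP p × LP p) × LP p)) :=
    W₂.prodMap ((ContinuousLinearMap.id ℂ (LP p × LP p)).prodMap V)
  let W₃ : (LP p × ((LP p × LP p) × LP p)) →L[ℂ] (LP p × ((LP p × LP p) × LP p)) :=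
    (regr₂ E₂ : ((LP p × LP p) × ((LP p × LP p) × LP p)) →L[ℂ]
      (LP p × ((LP p × LP p) × LP p))) ∘L D ∘L
      (regr₁ E₁ : (LP p × ((LP p × LP p) × LP p)) →L[ℂ]
        ((LP p × LP p) × ((LP p × LP p) × LP p)))
  have hIV : EssInv ((ContinuousLinearMap.id ℂ (LP p × LP p)).prodMap V) := essInv_id.prodMap hV
  have hD : EssInv D := hW₂.prodMap hIV
  have hW₃ : EssInv W₃ := (EssInv.of_equiv (regr₂ E₂)).comp (hD.comp (EssInv.of_equiv (regr₁ E₁)))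
  have hiD : findex D = 0 := by
    have e1 := hIX.2.2.1 _ _ _ _ hXX hXX hXXX hXXX W₂
      ((ContinuousLinearMap.id ℂ (LP p × LP p)).prodMap V) hW₂ hIV
    have e2 := hIX.2.2.1 _ _ _ _ hXX hXX hX hX (ContinuousLinearMap.id ℂ (LP p × LP p)) V
      essInv_id hV
    rw [e2, findex_id, hVi] at e1
    change findex (W₂.prodMap ((ContinuousLinearMap.id ℂ (LP p × LP p)).prodMap V)) = 0
    rw [e1]
    ring
  have hi₃ : findex W₃ = 0 := by
    have e1 := hIX.2.2.2 _ _ _ _ D (regr₁ E₁) (regr₂ E₂)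
    change findex ((regr₂ E₂ : ((LP p × LP p) × ((LP p × LP p) × LP p)) →L[ℂ]
      (LP p × ((LP p × LP p) × LP p))) ∘L D ∘L
      (regr₁ E₁ : (LP p × ((LP p × LP p) × LP p)) →L[ℂ]
        ((LP p × LP p) × ((LP p × LP p) × LP p)))) = 0
    rw [e1, hiD]
  obtain ⟨U₃, hU₃⟩ := hIX.1 _ _ hX4 hX4 W₃ hW₃ hi₃
  let S₃ : ((LP p × LP p) × LP p) ≃L[ℂ] LP p :=
    (S.prodCongr (ContinuousLinearEquiv.refl ℂ (LP p))).trans S
  let σ : Rep M (LP p) := ((α'.prod β').prod (scal ⟨v₀, hv₀⟩ (LP p))).conj S₃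
  let C₃ : (LP p × ((LP p × LP p) × LP p)) ≃L[ℂ] (LP p × LP p) :=
    (ContinuousLinearEquiv.refl ℂ (LP p)).prodCongr S₃
  refine ⟨σ, (C₃.symm.trans U₃).trans C₃, fun a T₁ T₂ hT₁ hT₂ => ?_⟩
  let Q : ((LP p × LP p) × LP p) →L[ℂ] ((LP p × LP p) × LP p) :=
    ((α'.hom a).prodMap (β'.hom a)).prodMap ((scal ⟨v₀, hv₀⟩ (LP p)).hom a)
  have h4 : EqK (W₃ ∘L (T₁.prodMap Q)) ((T₂.prodMap Q) ∘L W₃) := hint₃ a T₁ T₂ hT₁ hT₂
  have h5 : EqK ((U₃ : (LP p × ((LP p × LP p) × LP p)) →L[ℂ] (LP p × ((LP p × LP p) × LP p))) ∘L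
      (T₁.prodMap Q)) ((T₂.prodMap Q) ∘L
      (U₃ : (LP p × ((LP p × LP p) × LP p)) →L[ℂ] (LP p × ((LP p × LP p) × LP p)))) :=
    (hU₃.comp_right _).trans (h4.trans (hU₃.symm.comp_left _))
  have h6 := (h5.comp_right (C₃.symm : (LP p × LP p) →L[ℂ] _)).comp_left
    (C₃ : (LP p × ((LP p × LP p) × LP p)) →L[ℂ] (LP p × LP p))
  refine EqK.trans (EqK.of_eq ?_) (h6.trans (EqK.of_eq ?_))
  · refine ContinuousLinearMap.ext fun q => ?_
    obtain ⟨x, y⟩ := q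
    change C₃ (U₃ (T₁ x, S₃.symm (S₃ (Q (S₃.symm y))))) = C₃ (U₃ (T₁ x, Q (S₃.symm y)))
    rw [S₃.symm_apply_apply]
  · refine ContinuousLinearMap.ext fun q => ?_
    obtain ⟨x, y⟩ := q
    change (T₂ (U₃ (x, S₃.symm y)).1, S₃ (Q (U₃ (x, S₃.symm y)).2)) =
      (T₂ (U₃ (x, S₃.symm y)).1, S₃ (Q (S₃.symm (S₃ (U₃ (x, S₃.symm y)).2))))
    rw [S₃.symm_apply_apply]

end Pool.Agent.H90.BDFP
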